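import Mathlib

/-! Colourings of vertex subsets, regions without large semi-induced matchings, finite Ramsey. -/

set_option autoImplicit false

namespace Pool.Agent.H459Z

variable {V : Type}

/-- The set `S` can be properly coloured with `n` colours. -/
def Col (G : SimpleGraph V) (S : Set V) (n : ℕ) : Prop :=
  ∃ f : V → ℕ, (∀ v ∈ S, f v < n) ∧ ∀ u ∈ S, ∀ v ∈ S, G.Adj u v → f u ≠ f v

theorem Col.mono {G : SimpleGraph V} {S T : Set V} {n m : ℕ} (h : Col G T n) (hS : S ⊆ T)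
    (hn : n ≤ m) : Col G S m := by
  obtain ⟨f, h1, h2⟩ := h
  exact ⟨f, fun v hv => lt_of_lt_of_le (h1 v (hS hv)) hn,
    fun u hu v hv huv => h2 u (hS hu) v (hS hv) huv⟩

theorem Col.union {G : SimpleGraph V} {S T : Set V} {n m : ℕ} (hS : Col G S n) (hT : Col G T m) :
    Col G (S ∪ T) (n + m) := by
  classical
  obtain ⟨f, f1, f2⟩ := hS
  obtain ⟨g, g1, g2⟩ := hT
  refine ⟨fun v => if v ∈ S then f v else n + g v, ?_, ?_⟩
  · intro v hv
    by_cases h : v ∈ S
    · simp only [h, if_true]; have := f1 v h; omega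
    · simp only [h, if_false]
      have := g1 v (hv.resolve_left h); omega
  · intro u hu v hv huv
    by_cases h : u ∈ S <;> by_cases h' : v ∈ S
    · simp only [h, h', if_true]; exact f2 u h v h' huv
    · simp only [h, h', if_true, if_false]; have := f1 u h; omega
    · simp only [h, h', if_true, if_false]; have := f1 v h'; omega
    · simp only [h, h', if_false]
      have := g2 u (hu.resolve_left h) v (hv.resolve_left h') huv; omega

theorem col_empty (G : SimpleGraph V) (n : ℕ) : Col G ∅ n :=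
  ⟨fun _ => 0, fun _ h => h.elim, fun _ h => h.elim⟩

theorem nonempty_of_not_col {G : SimpleGraph V} {S : Set V} {n : ℕ} (h : ¬ Col G S n) :
    S.Nonempty := by
  by_contra hS
  rw [Set.not_nonempty_iff_eq_empty] at hS
  exact h (hS ▸ col_empty G n)

theorem col_subsingleton (G : SimpleGraph V) {S : Set V} (hS : S.Subsingleton) : Col G S 1 :=
  ⟨fun _ => 0, fun _ _ => Nat.zero_lt_one, fun _ hu _ hv huv => absurd (hS hu hv) huv.ne⟩

theorem not_col_diff {G : SimpleGraph V} {C D : Set V} {a b : ℕ} (hC : ¬ Col G C (a + b))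
    (hD : Col G D a) : ¬ Col G (C \ D) b := fun h =>
  hC ((hD.union h).mono (fun x hx => by
    by_cases hx' : x ∈ D
    · exact Or.inl hx'
    · exact Or.inr ⟨hx, hx'⟩) le_rfl)

theorem col_biUnion {α : Type*} {G : SimpleGraph V} (A : Finset α) (S : α → Set V) (n : ℕ)
    (h : ∀ a ∈ A, Col G (S a) n) : Col G {x | ∃ a ∈ A, x ∈ S a} (A.card * n) := by
  classical
  induction A using Finset.induction_on with
  | empty => exact (col_empty G _).mono (fun x hx => by simp at hx) le_rfl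
  | insert a A ha ih =>
    have h1 := h a (Finset.mem_insert_self _ _)
    have h2 := ih (fun b hb => h b (Finset.mem_insert_of_mem hb))
    refine (h1.union h2).mono ?_ ?_
    · rintro x ⟨b, hb, hx⟩
      rcases Finset.mem_insert.mp hb with rfl | hb
      · exact Or.inl hx
      · exact Or.inr ⟨b, hb, hx⟩
    · rw [Finset.card_insert_of_notMem ha]; ring_nf; omega

/-- No semi-induced matching with `R` edges crosses from `ρ` to its complement. -/
def Reg (G : SimpleGraph V) (R : ℕ) (ρ : Set V) : Prop :=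
  ¬ ∃ a z : ℕ → V, (∀ l < R, a l ∈ ρ ∧ z l ∉ ρ) ∧ ∀ l < R, ∀ m < R, (G.Adj (a l) (z m) ↔ l = m)

theorem Reg.cover [Finite V] {G : SimpleGraph V} {R : ℕ} {ρ : Set V} (hρ : Reg G R ρ)
    (A Z : Set V) (hA : A ⊆ ρ) (hZ : ∀ z ∈ Z, z ∉ ρ) (hc : ∀ a ∈ A, ∃ z ∈ Z, G.Adj a z) :
    ∃ Z' : Finset V, (∀ z ∈ Z', z ∈ Z) ∧ Z'.card ≤ R ∧ ∀ a ∈ A, ∃ z ∈ Z', G.Adj a z := by
  classical
  have hex : ∃ n, ∃ Z' : Finset V, Z'.card = n ∧ (∀ z ∈ Z', z ∈ Z) ∧
      ∀ a ∈ A, ∃ z ∈ Z', G.Adj a z := by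
    refine ⟨_, (Set.toFinite Z).toFinset, rfl, fun z hz => by simpa using hz, fun a ha => ?_⟩
    obtain ⟨z, hz, haz⟩ := hc a ha
    exact ⟨z, by simpa using hz, haz⟩
  obtain ⟨Z', hcard, hZ', hcov⟩ := Nat.find_spec hex
  refine ⟨Z', hZ', ?_, hcov⟩
  by_contra hlt
  push Not at hlt
  have hpriv : ∀ z ∈ Z', ∃ a ∈ A, ∀ z' ∈ Z', (G.Adj a z' ↔ z = z') := by
    intro z hz
    have hmin := Nat.find_min hex (m := (Z'.erase z).card) (by
      rw [← hcard]; exact Finset.card_erase_lt_of_mem hz)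
    push Not at hmin
    obtain ⟨a, ha, hna⟩ := hmin (Z'.erase z) rfl
      (fun y hy => hZ' y (Finset.mem_of_mem_erase hy))
    refine ⟨a, ha, fun z' hz' => ⟨fun h => ?_, fun h => ?_⟩⟩
    · by_contra hne
      exact hna z' (Finset.mem_erase.mpr ⟨fun e => hne e.symm, hz'⟩) h
    · subst h
      obtain ⟨y, hy, hay⟩ := hcov a ha
      by_cases e : y = z
      · exact e ▸ hay
      · exact absurd hay (hna y (Finset.mem_erase.mpr ⟨e, hy⟩))
  choose! p hpA hp using hpriv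
  obtain ⟨z0, hz0⟩ : Z'.Nonempty := Finset.card_pos.mp (by omega)
  let e : Fin Z'.card → V := fun i => (Z'.equivFin.symm i : V)
  have he : ∀ i, e i ∈ Z' := fun i => (Z'.equivFin.symm i).2
  have hinj : Function.Injective e := fun i j hij =>
    Z'.equivFin.symm.injective (Subtype.ext hij)
  let z : ℕ → V := fun l => if h : l < Z'.card then e ⟨l, h⟩ else z0
  have hz : ∀ l, z l ∈ Z' := fun l => by
    by_cases h : l < Z'.card
    · simp only [z, h, dif_pos]; exact he _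
    · simp only [z, h, dif_neg, not_false_eq_true]; exact hz0
  apply hρ
  refine ⟨fun l => p (z l), z, fun l _ => ⟨hA (hpA _ (hz l)), hZ _ (hZ' _ (hz l))⟩, ?_⟩
  intro l hl m hm
  rw [hp _ (hz l) _ (hz m)]
  have hl' : l < Z'.card := by omega
  have hm' : m < Z'.card := by omega
  simp only [z, hl', hm', dif_pos]
  constructor
  · intro h; exact congrArg Fin.val (hinj h)
  · intro h; subst h; rfl

theorem Reg.loc [Finite V] {G : SimpleGraph V} {R : ℕ} {ρ : Set V} (hρ : Reg G R ρ)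
    (C Z : Set V) (link : V → V → Prop) (lam : ℕ)
    (h : ∀ z ∈ Z, Col G {x | x ∈ C ∧ ∃ a, link x a ∧ G.Adj a z} lam) :
    Col G {x | x ∈ C ∧ ∃ a ∈ ρ, ∃ z ∈ Z, z ∉ ρ ∧ link x a ∧ G.Adj a z} (R * lam) := by
  obtain ⟨Z', h1, h2, h3⟩ := hρ.cover {a | a ∈ ρ ∧ ∃ z ∈ Z, z ∉ ρ ∧ G.Adj a z}
    {z | z ∈ Z ∧ z ∉ ρ} (fun a ha => ha.1) (fun z hz => hz.2) (by
      rintro a ⟨_, z, hz, hz', haz⟩
      exact ⟨z, ⟨hz, hz'⟩, haz⟩)
  refine (col_biUnion Z' (fun z => {x | x ∈ C ∧ ∃ a, link x a ∧ G.Adj a z}) lam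
    (fun z hz => h z (h1 z hz).1)).mono ?_ (Nat.mul_le_mul_right _ h2)
  rintro x ⟨hx, a, ha, z, hz, hz', hl, haz⟩
  obtain ⟨y, hy, hay⟩ := h3 a ⟨ha, z, hz, hz', haz⟩
  exact ⟨y, hy, hx, a, hl, hay⟩

/-- The vertices of `ρ` with a neighbour outside `ρ` have bounded chromatic number. -/
theorem Reg.bdry [Finite V] {G : SimpleGraph V} {R c : ℕ} {ρ : Set V} (hρ : Reg G R ρ)
    (hc : ∀ v, Col G {u | G.Adj u v} c) :
    Col G {x | x ∈ ρ ∧ ∃ z, z ∉ ρ ∧ G.Adj x z} (R * c) := by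
  refine (hρ.loc Set.univ Set.univ (fun x a => x = a) c (fun z _ => (hc z).mono ?_ le_rfl)).mono
    ?_ le_rfl
  · rintro x ⟨_, a, rfl, h⟩; exact h
  · rintro x ⟨hx, z, hz, h⟩
    exact ⟨trivial, x, hx, z, trivial, hz, rfl, h⟩

theorem ramsey_aux {α : Type} [DecidableEq α] (A : Finset α) (N : ℕ) :
    ∀ n : α → ℕ, ∑ γ ∈ A, n γ = N → ∃ T : ℕ, ∀ (S : Finset ℕ) (f : ℕ → ℕ → α), T ≤ S.card →
      (∀ i ∈ S, ∀ j ∈ S, i < j → f i j ∈ A) →
      ∃ γ ∈ A, ∃ S' ⊆ S, S'.card = n γ ∧ ∀ i ∈ S', ∀ j ∈ S', i < j → f i j = γ := by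
  induction N using Nat.strong_induction_on with
  | _ N ih =>
  intro n hn
  by_cases h0 : ∃ γ ∈ A, n γ = 0
  · obtain ⟨γ, hγ, h0⟩ := h0
    exact ⟨0, fun S f _ _ => ⟨γ, hγ, ∅, Finset.empty_subset _, by simp [h0], by simp⟩⟩
  push Not at h0
  have hstep : ∀ γ ∈ A, ∃ T : ℕ, ∀ (S : Finset ℕ) (f : ℕ → ℕ → α), T ≤ S.card →
      (∀ i ∈ S, ∀ j ∈ S, i < j → f i j ∈ A) →
      ∃ δ ∈ A, ∃ S' ⊆ S, S'.card = Function.update n γ (n γ - 1) δ ∧
        ∀ i ∈ S', ∀ j ∈ S', i < j → f i j = δ := by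
    intro γ hγ
    refine ih (∑ δ ∈ A, Function.update n γ (n γ - 1) δ) ?_ _ rfl
    rw [← hn]
    apply Finset.sum_lt_sum
    · intro δ _
      by_cases e : δ = γ
      · subst e; simp
      · simp [Function.update_of_ne e]
    · refine ⟨γ, hγ, ?_⟩
      have := h0 γ hγ
      simp only [Function.update_self]; omega
  choose! T hT using hstep
  refine ⟨(∑ γ ∈ A, T γ) + 2, fun S f hS hf => ?_⟩
  have hne : S.Nonempty := Finset.card_pos.mp (by omega)
  set v := S.min' hne with hv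
  have hvS : v ∈ S := S.min'_mem hne
  have hlt : ∀ j ∈ S.erase v, v < j := fun j hj =>
    lt_of_le_of_ne (S.min'_le j (Finset.mem_of_mem_erase hj))
      (fun e => (Finset.mem_erase.mp hj).1 e.symm)
  have hmap : ∀ j ∈ S.erase v, f v j ∈ A := fun j hj =>
    hf v hvS j (Finset.mem_of_mem_erase hj) (hlt j hj)
  have hcard := Finset.card_eq_sum_card_fiberwise (s := S.erase v) (t := A) (f := fun j => f v j)
    (fun j hj => hmap j hj)
  have hex : ∃ γ ∈ A, T γ ≤ ((S.erase v).filter (fun j => f v j = γ)).card := by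
    by_contra hno
    push Not at hno
    have h1 : ∑ γ ∈ A, ((S.erase v).filter (fun j => f v j = γ)).card ≤ ∑ γ ∈ A, T γ :=
      Finset.sum_le_sum (fun γ hγ => (hno γ hγ).le)
    rw [Finset.card_erase_of_mem hvS] at hcard
    omega
  obtain ⟨γ, hγ, hbig⟩ := hex
  have hsub : (S.erase v).filter (fun j => f v j = γ) ⊆ S := fun j hj =>
    Finset.mem_of_mem_erase (Finset.mem_filter.mp hj).1
  obtain ⟨δ, hδ, S', hS', hc, hm⟩ := hT γ hγ _ f hbig
    (fun i hi j hj hij => hf i (hsub hi) j (hsub hj) hij)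
  by_cases e : δ = γ
  · subst e
    have hvS' : v ∉ S' := fun h => by
      have := (Finset.mem_filter.mp (hS' h)).1
      simp at this
    refine ⟨δ, hδ, insert v S', ?_, ?_, ?_⟩
    · intro j hj
      rcases Finset.mem_insert.mp hj with rfl | hj
      · exact hvS
      · exact hsub (hS' hj)
    · rw [Finset.card_insert_of_notMem hvS', hc]
      have := h0 δ hδ
      simp only [Function.update_self]; omega
    · intro i hi j hj hij
      rcases Finset.mem_insert.mp hi with rfl | hi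
      · rcases Finset.mem_insert.mp hj with rfl | hj
        · exact absurd hij (lt_irrefl _)
        · exact (Finset.mem_filter.mp (hS' hj)).2
      · rcases Finset.mem_insert.mp hj with rfl | hj
        · have := hlt i (Finset.mem_filter.mp (hS' hi)).1
          omega
        · exact hm i hi j hj hij
  · refine ⟨δ, hδ, S', fun j hj => hsub (hS' hj), ?_, hm⟩
    rw [hc, Function.update_of_ne e]

/-- Finite Ramsey theorem for pairs, with the homogeneous set listed increasingly. -/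
theorem ramsey {α : Type} [DecidableEq α] (A : Finset α) (n : ℕ) :
    ∃ T : ℕ, ∀ f : ℕ → ℕ → α, (∀ i j, i < j → j < T → f i j ∈ A) →
      ∃ γ ∈ A, ∃ s : ℕ → ℕ, (∀ a < n, s a < T) ∧
        ∀ a b, a < b → b < n → s a < s b ∧ f (s a) (s b) = γ := by
  obtain ⟨T, hT⟩ := ramsey_aux A _ (fun _ => n) rfl
  refine ⟨T, fun f hf => ?_⟩
  obtain ⟨γ, hγ, S', hS', hc, hm⟩ := hT (Finset.range T) f (by simp)
    (fun i _ j hj hij => hf i j hij (Finset.mem_range.mp hj))
  let e := S'.orderEmbOfFin hc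
  have he : ∀ i, e i ∈ S' := fun i => Finset.orderEmbOfFin_mem S' hc i
  refine ⟨γ, hγ, fun a => if h : a < n then e ⟨a, h⟩ else 0, ?_, ?_⟩
  · intro a ha
    simp only [ha, dif_pos]
    exact Finset.mem_range.mp (hS' (he _))
  · intro a b hab hb
    have ha : a < n := by omega
    simp only [ha, hb, dif_pos]
    have hlt : e ⟨a, ha⟩ < e ⟨b, hb⟩ := e.strictMono (by simpa using hab)
    exact ⟨hlt, hm _ (he _) _ (he _) hlt⟩

end Pool.Agent.H459Z
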