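import Pool.Agent.H459Z.Setup

/-! Cables of clique covers. -/

set_option autoImplicit false

namespace Pool.Agent.H459Z

section Single
variable {V : Type}

/-- Extend a tuple of length `h` by one more vertex. -/
def ext (X : ℕ → V) (h : ℕ) (m : V) : ℕ → V := fun a => if a = h then m else X a

theorem ext_lt (X : ℕ → V) {h a : ℕ} (m : V) (ha : a < h) : ext X h m a = X a := by
  simp [ext, ha.ne]

theorem ext_self (X : ℕ → V) (h : ℕ) (m : V) : ext X h m h = m := by simp [ext]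

theorem forall_ext {X : ℕ → V} {h : ℕ} {m : V} {P : V → Prop} (h1 : ∀ a < h, P (X a))
    (h2 : P m) : ∀ a < h + 1, P (ext X h m a) := by
  intro a ha
  by_cases e : a = h
  · rw [e, ext_self]; exact h2
  · rw [ext_lt X m (by omega)]; exact h1 a (by omega)

theorem clq_ext {G : SimpleGraph V} {X : ℕ → V} {h : ℕ} {m : V} (h1 : Clq G X h)
    (h2 : Cmp G m X h) : Clq G (ext X h m) (h + 1) := by
  intro a ha b hb hab
  by_cases ea : a = h <;> by_cases eb : b = h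
  · omega
  · rw [ea, ext_self, ext_lt X m (by omega : b < h)]; exact h2 b (by omega)
  · rw [eb, ext_self, ext_lt X m (by omega : a < h)]; exact (h2 a (by omega)).symm
  · rw [ext_lt X m (by omega : a < h), ext_lt X m (by omega : b < h)]
    exact h1 a (by omega) b (by omega) hab

theorem mem_N2_ext {G : SimpleGraph V} {W : Set V} {X : ℕ → V} {h : ℕ} {m x y : V} (hx : x ∈ W)
    (h1 : Anti G x X h) (h2 : ¬ G.Adj x m) (hy : y ∈ W) (h3 : G.Adj x y) (h4 : Cmp G y X h)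
    (h5 : G.Adj y m) : x ∈ N2 G W (ext X h m) (h + 1) 1 :=
  ⟨hx, forall_ext (P := fun v => ¬ G.Adj x v) h1 h2, fun _ => y, fun a ha b hb hab => by omega,
    fun _ _ => hy, fun _ _ => forall_ext (P := fun v => G.Adj y v) h4 h5, fun _ _ => h3⟩

/-- The pairs of layers whose type has been decided. -/
def Typed (T t i j : ℕ) : Prop := i < j ∧ (j < T ∨ (j = T ∧ i < t))

/-- A cable with layers `0, …, T`, in which the last layer has been compared with the layers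
below `t`. -/
structure Cab (G : SimpleGraph V) (h q : ℕ) (W : Set V) (T t : ℕ)
    (ty : ℕ → ℕ → Option (ℕ × ℕ)) (C : Set V) (X : ℕ → ℕ → V) (𝒦 : ℕ → Set (ℕ → V))
    (z : ℕ → ℕ → V) : Prop where
  sub : C ⊆ W
  xc : ∀ i ≤ T, Clq G (X i) h ∧ In W (X i) h
  anti : ∀ i ≤ T, ∀ x ∈ C, Anti G x (X i) h
  cov : ∀ i ≤ T, ∀ x ∈ C, ∃ K ∈ 𝒦 i, Cmp G x K q
  kk : ∀ i ≤ T, ∀ K ∈ 𝒦 i, Clq G K q ∧ In W K q ∧ ∀ p < q, Cmp G (K p) (X i) h
  low : ∀ i j, i < j → j ≤ T → ∀ K ∈ 𝒦 j, ∀ p < q, Anti G (K p) (X i) h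
  nobig : ∀ x ∈ C, x ∉ N2 G W (X T) h (q + 1)
  pend : ∀ i, t ≤ i → i < T → ∀ Q ∈ 𝒦 T, ∃ K ∈ 𝒦 i, Cmp G (Q 0) K q
  ty1 : ∀ i j p a, Typed T t i j → ty i j = some (p, a) →
    p < q ∧ a < h ∧ ∀ K ∈ 𝒦 i, ¬ G.Adj (K p) (X j a)
  ty2 : ∀ i j, Typed T t i j → ty i j = none →
    (∀ K ∈ 𝒦 i, ∀ p < q, Cmp G (K p) (X j) h) ∧ (∀ Q ∈ 𝒦 j, G.Adj (Q 0) (z i j)) ∧
    (∀ k, j < k → k ≤ T → ∀ Q ∈ 𝒦 k, ¬ G.Adj (Q 0) (z i j)) ∧ (∀ x ∈ C, ¬ G.Adj x (z i j)) ∧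
    ∀ x ∈ C, ∀ y ∈ W, G.Adj x y → Cmp G y (X i) h → ¬ G.Adj y (z i j)

/-- Change a two-variable function at the pair `(t, T)`. -/
def upd {α : Type} (f : ℕ → ℕ → α) (t T : ℕ) (v : α) : ℕ → ℕ → α :=
  fun i j => if i = t ∧ j = T then v else f i j

theorem Cab.shrink {G : SimpleGraph V} {h q : ℕ} {W : Set V} {T t : ℕ}
    {ty : ℕ → ℕ → Option (ℕ × ℕ)} {C : Set V} {X : ℕ → ℕ → V} {𝒦 : ℕ → Set (ℕ → V)}
    {z : ℕ → ℕ → V} (H : Cab G h q W T t ty C X 𝒦 z) (o : Option (ℕ × ℕ)) (z0 : V)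
    (C' : Set V) (𝒦' : ℕ → Set (ℕ → V)) (hC : C' ⊆ C) (hK : ∀ i, 𝒦' i ⊆ 𝒦 i)
    (hK' : ∀ i, t < i → i < T → 𝒦' i = 𝒦 i)
    (cov : ∀ i ≤ T, ∀ x ∈ C', ∃ K ∈ 𝒦' i, Cmp G x K q)
    (n1 : ∀ p a, o = some (p, a) → p < q ∧ a < h ∧ ∀ K ∈ 𝒦' t, ¬ G.Adj (K p) (X T a))
    (n2 : o = none → (∀ K ∈ 𝒦' t, ∀ p < q, Cmp G (K p) (X T) h) ∧ (∀ Q ∈ 𝒦' T, G.Adj (Q 0) z0) ∧
      (∀ x ∈ C', ¬ G.Adj x z0) ∧
      ∀ x ∈ C', ∀ y ∈ W, G.Adj x y → Cmp G y (X t) h → ¬ G.Adj y z0) :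
    Cab G h q W T (t + 1) (upd ty t T o) C' X 𝒦' (upd z t T z0) where
  sub := hC.trans H.sub
  xc := H.xc
  anti := fun i hi x hx => H.anti i hi x (hC hx)
  cov := cov
  kk := fun i hi K hK0 => H.kk i hi K (hK i hK0)
  low := fun i j hij hj K hK0 => H.low i j hij hj K (hK j hK0)
  nobig := fun x hx => H.nobig x (hC hx)
  pend := fun i h1 h2 Q hQ => by
    rw [hK' i (by omega) h2]
    exact H.pend i (by omega) h2 Q (hK T hQ)
  ty1 := fun i j p a hT hty => by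
    by_cases e : i = t ∧ j = T
    · obtain ⟨rfl, rfl⟩ := e
      simp only [upd, and_self, if_true] at hty
      exact n1 p a hty
    · simp only [upd, e, if_false] at hty
      have hT' : Typed T t i j := by
        unfold Typed at hT ⊢; omega
      obtain ⟨k1, k2, k3⟩ := H.ty1 i j p a hT' hty
      exact ⟨k1, k2, fun K hK0 => k3 K (hK i hK0)⟩
  ty2 := fun i j hT hty => by
    by_cases e : i = t ∧ j = T
    · obtain ⟨rfl, rfl⟩ := e
      simp only [upd, and_self, if_true] at hty ⊢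
      obtain ⟨k1, k2, k3, k4⟩ := n2 hty
      exact ⟨k1, k2, fun k h1 h2 => by omega, k3, k4⟩
    · simp only [upd, e, if_false] at hty ⊢
      have hT' : Typed T t i j := by
        unfold Typed at hT ⊢; omega
      obtain ⟨k1, k2, k3, k4, k5⟩ := H.ty2 i j hT' hty
      exact ⟨fun K hK0 => k1 K (hK i hK0), fun Q hQ => k2 Q (hK j hQ),
        fun k h1 h2 Q hQ => k3 k h1 h2 Q (hK k hQ), fun x hx => k4 x (hC hx),
        fun x hx => k5 x (hC hx)⟩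

theorem Cab.type1 {G : SimpleGraph V} {h q : ℕ} {W : Set V} {T t : ℕ}
    {ty : ℕ → ℕ → Option (ℕ × ℕ)} {C : Set V} {X : ℕ → ℕ → V} {𝒦 : ℕ → Set (ℕ → V)}
    {z : ℕ → ℕ → V} (H : Cab G h q W T t ty C X 𝒦 z) {p a : ℕ} (hp : p < q) (ha : a < h) :
    ∃ 𝒦' z', Cab G h q W T (t + 1) (upd ty t T (some (p, a)))
      {x | x ∈ C ∧ ∃ K ∈ 𝒦 t, Cmp G x K q ∧ ¬ G.Adj (K p) (X T a)} X 𝒦' z' := by
  refine ⟨fun i => if i = t then {K | K ∈ 𝒦 t ∧ ¬ G.Adj (K p) (X T a)} else 𝒦 i, _,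
    H.shrink _ (z 0 0) _ _ (fun x hx => hx.1) ?_ ?_ ?_ ?_ ?_⟩
  · intro i
    by_cases e : i = t
    · simp only [e, if_true]; exact fun K hK => hK.1
    · simp only [e, if_false]; exact le_rfl
  · intro i h1 _
    simp only [h1.ne', if_false]
  · rintro i hi x ⟨hx, K, h1, h2, h3⟩
    by_cases e : i = t
    · simp only [e, if_true]; exact ⟨K, ⟨h1, h3⟩, h2⟩
    · simp only [e, if_false]; exact H.cov i hi x hx
  · intro p' a' e
    simp only [Option.some.injEq, Prod.mk.injEq] at e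
    obtain ⟨rfl, rfl⟩ := e
    simp only [if_true]
    exact ⟨hp, ha, fun K hK => hK.2⟩
  · intro e; simp at e

theorem Cab.type2 {G : SimpleGraph V} {h q : ℕ} {W : Set V} {T t : ℕ}
    {ty : ℕ → ℕ → Option (ℕ × ℕ)} {C : Set V} {X : ℕ → ℕ → V} {𝒦 : ℕ → Set (ℕ → V)}
    {z : ℕ → ℕ → V} (H : Cab G h q W T t ty C X 𝒦 z) (ht : t < T) (z0 : V) :
    ∃ 𝒦' z', Cab G h q W T (t + 1) (upd ty t T none)
      {x | x ∈ C ∧ (∀ K ∈ 𝒦 t, Cmp G x K q → ∀ p < q, Cmp G (K p) (X T) h) ∧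
        (∃ Q ∈ 𝒦 T, Cmp G x Q q ∧ G.Adj (Q 0) z0) ∧ ¬ G.Adj x z0 ∧
        x ∉ N2 G W (ext (X t) h z0) (h + 1) 1} X 𝒦' z' := by
  refine ⟨fun i => if i = t then {K | K ∈ 𝒦 t ∧ ∀ p < q, Cmp G (K p) (X T) h} else
    if i = T then {Q | Q ∈ 𝒦 T ∧ G.Adj (Q 0) z0} else 𝒦 i, _,
    H.shrink _ z0 _ _ (fun x hx => hx.1) ?_ ?_ ?_ ?_ ?_⟩
  · intro i
    by_cases e : i = t
    · simp only [e, if_true]; exact fun K hK => hK.1
    · by_cases e' : i = T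
      · simp only [e', ht.ne', if_true, if_false]; exact fun K hK => hK.1
      · simp only [e, e', if_false]; exact le_rfl
  · intro i h1 h2
    simp only [h1.ne', h2.ne, if_false]
  · rintro i hi x ⟨hx, h1, ⟨Q, h2, h3, h4⟩, _, _⟩
    by_cases e : i = t
    · simp only [e, if_true]
      obtain ⟨K, k1, k2⟩ := H.cov t ht.le x hx
      exact ⟨K, ⟨k1, h1 K k1 k2⟩, k2⟩
    · by_cases e' : i = T
      · simp only [e', ht.ne', if_true, if_false]; exact ⟨Q, ⟨h2, h4⟩, h3⟩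
      · simp only [e, e', if_false]; exact H.cov i hi x hx
  · intro p a e; simp at e
  · intro _
    simp only [ht.ne', if_true, if_false]
    refine ⟨fun K hK => hK.2, fun Q hQ => hQ.2, fun x hx => hx.2.2.2.1, ?_⟩
    rintro x ⟨hx, _, _, h1, h2⟩ y hy hxy hyX hyz
    exact h2 (mem_N2_ext (H.sub hx) (H.anti t ht.le x hx) h1 hy hxy hyX hyz)

theorem Cab.base (G : SimpleGraph V) {h q : ℕ} {W : Set V} {X : ℕ → V} (h1 : Clq G X h)
    (h2 : In W X h) (ty : ℕ → ℕ → Option (ℕ × ℕ)) :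
    Cab G h q W 0 0 ty (N2 G W X h q \ N2 G W X h (q + 1)) (fun _ => X)
      (fun _ => {K | Clq G K q ∧ In W K q ∧ ∀ p < q, Cmp G (K p) X h}) (fun _ _ => X 0) where
  sub := fun _ hx => hx.1.1
  xc := fun _ _ => ⟨h1, h2⟩
  anti := fun _ _ _ hx => hx.1.2.1
  cov := fun _ _ _ hx => by
    obtain ⟨K, k1, k2, k3, k4⟩ := hx.1.2.2
    exact ⟨K, ⟨k1, k2, k3⟩, k4⟩
  kk := fun _ _ _ hK => hK
  low := fun i j h1 h2 => by omega
  nobig := fun _ hx => hx.2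
  pend := fun i h1 h2 => by omega
  ty1 := fun i j p a hT => by unfold Typed at hT; omega
  ty2 := fun i j hT => by unfold Typed at hT; omega

theorem Cab.newLayer {G : SimpleGraph V} {h q : ℕ} (hq : 0 < q) {W : Set V} {T : ℕ}
    {ty : ℕ → ℕ → Option (ℕ × ℕ)} {C : Set V} {X : ℕ → ℕ → V} {𝒦 : ℕ → Set (ℕ → V)}
    {z : ℕ → ℕ → V} (H : Cab G h q W T T ty C X 𝒦 z) {X' : ℕ → V} (h1 : Clq G X' h)
    (h2 : In C X' h) :
    Cab G h q W (T + 1) 0 ty (N2 G C X' h q \ N2 G W X' h (q + 1))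
      (fun i => if i = T + 1 then X' else X i)
      (fun i => if i = T + 1 then {K | Clq G K q ∧ In C K q ∧ ∀ p < q, Cmp G (K p) X' h}
        else 𝒦 i) z where
  sub := fun _ hx => H.sub hx.1.1
  xc := fun i hi => by
    by_cases e : i = T + 1
    · simp only [e, if_true]; exact ⟨h1, fun a ha => H.sub (h2 a ha)⟩
    · simp only [e, if_false]; exact H.xc i (by omega)
  anti := fun i hi x hx => by
    by_cases e : i = T + 1
    · simp only [e, if_true]; exact hx.1.2.1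
    · simp only [e, if_false]; exact H.anti i (by omega) x hx.1.1
  cov := fun i hi x hx => by
    by_cases e : i = T + 1
    · simp only [e, if_true]
      obtain ⟨K, k1, k2, k3, k4⟩ := hx.1.2.2
      exact ⟨K, ⟨k1, k2, k3⟩, k4⟩
    · simp only [e, if_false]; exact H.cov i (by omega) x hx.1.1
  kk := fun i hi K hK => by
    by_cases e : i = T + 1
    · simp only [e, if_true] at hK ⊢
      exact ⟨hK.1, fun a ha => H.sub (hK.2.1 a ha), hK.2.2⟩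
    · simp only [e, if_false] at hK ⊢; exact H.kk i (by omega) K hK
  low := fun i j hij hj K hK p hp => by
    have ei : i ≠ T + 1 := by omega
    by_cases e : j = T + 1
    · simp only [e, ei, if_true, if_false] at hK ⊢
      exact H.anti i (by omega) _ (hK.2.1 p hp)
    · simp only [e, ei, if_false] at hK ⊢; exact H.low i j hij (by omega) K hK p hp
  nobig := fun x hx => by simp only [if_true]; exact hx.2
  pend := fun i _ hi Q hQ => by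
    have ei : i ≠ T + 1 := by omega
    simp only [ei, if_true, if_false] at hQ ⊢
    exact H.cov i (by omega) _ (hQ.2.1 0 hq)
  ty1 := fun i j p a hT hty => by
    have hT' : Typed T T i j := by unfold Typed at hT ⊢; omega
    have ei : i ≠ T + 1 := by unfold Typed at hT; omega
    have ej : j ≠ T + 1 := by unfold Typed at hT; omega
    simp only [ei, ej, if_false]
    exact H.ty1 i j p a hT' hty
  ty2 := fun i j hT hty => by
    have hT' : Typed T T i j := by unfold Typed at hT ⊢; omega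
    have ei : i ≠ T + 1 := by unfold Typed at hT; omega
    have ej : j ≠ T + 1 := by unfold Typed at hT; omega
    simp only [ei, ej, if_false]
    obtain ⟨k1, k2, k3, k4, k5⟩ := H.ty2 i j hT' hty
    refine ⟨k1, k2, fun k hk hk' Q hQ => ?_, fun x hx => k4 x hx.1.1, fun x hx => k5 x hx.1.1⟩
    by_cases e : k = T + 1
    · simp only [e, if_true] at hQ
      exact k4 _ (hQ.2.1 0 hq)
    · simp only [e, if_false] at hQ
      exact k3 k hk (by omega) Q hQ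

theorem Cab.robP [Finite V] {G : SimpleGraph V} {h q R c τ : ℕ} (hh : 0 < h) (hq : 0 < q)
    {W : Set V} {T t : ℕ}
    {ty : ℕ → ℕ → Option (ℕ × ℕ)} {C : Set V} {X : ℕ → ℕ → V} {𝒦 : ℕ → Set (ℕ → V)}
    {z : ℕ → ℕ → V} (H : Cab G h q W T t ty C X 𝒦 z) (ht : t < T)
    (hc : ∀ v, Col G {u | G.Adj u v} c)
    (hτ : ∀ Y, Clq G Y (h + 1) → In W Y (h + 1) → Col G (N2 G W Y (h + 1) 1) τ) :
    ∃ F, Rob G R (q + 1) (R * c + R * (c + τ) + 0) W (X T 0) F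
      {x | x ∈ C ∧ ∃ Q ∈ 𝒦 T, Cmp G x Q q ∧
        ∃ K ∈ 𝒦 t, Cmp G (Q 0) K q ∧ ∀ p < q, Cmp G (K p) (X T) h} := by
  refine ⟨{K | Clq G K (q + 1) ∧ In W K (q + 1) ∧ ∀ p < q + 1, Cmp G (K p) (X T) h},
    (H.xc T le_rfl).2 0 hh, fun x hx => H.sub hx.1, fun x hx => H.anti T le_rfl x hx.1 0 hh,
    fun K hK => ⟨hK.2.1, fun p hp => (hK.2.2 p hp 0 hh).symm⟩, ?_, ?_⟩
  · intro x hx K hK hxK
    exact H.nobig x hx.1 ⟨H.sub hx.1, H.anti T le_rfl x hx.1, K, hK.1, hK.2.1, hK.2.2, hxK⟩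
  · intro ρ hρ hC
    have b1 := hρ.bdry hc
    have b2 := hρ.loc C {m | m ∈ W ∧ Cmp G m (X T) h}
      (fun x a => G.Adj x a ∧ a ∈ W ∧ Cmp G a (X T) h) (c + τ) (by
      rintro m ⟨hm, hmX⟩
      refine ((hc m).union (hτ (ext (X T) h m) (clq_ext (H.xc T le_rfl).1 hmX)
        (forall_ext (P := fun v => v ∈ W) (H.xc T le_rfl).2 hm))).mono ?_ le_rfl
      rintro x ⟨hx, a, ⟨hxa, ha, haX⟩, ham⟩
      by_cases hxm : G.Adj x m
      · exact Or.inl hxm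
      · exact Or.inr (mem_N2_ext (H.sub hx) (H.anti T le_rfl x hx) hxm ha hxa haX ham))
    obtain ⟨x, ⟨⟨hxC, Q, hQ, hxQ, K, hK, hQK, hKX⟩, hxρ⟩, hx⟩ :=
      nonempty_of_not_col (not_col_diff hC (b1.union b2))
    obtain ⟨q1, q2, q3⟩ := H.kk T le_rfl Q hQ
    obtain ⟨k1, k2, _⟩ := H.kk t ht.le K hK
    have hl : Q 0 ∈ ρ := by
      by_contra hn
      exact hx (Or.inl ⟨hxρ, _, hn, hxQ 0 hq⟩)
    refine ⟨ext K q (Q 0), ⟨clq_ext k1 hQK, forall_ext (P := fun v => v ∈ W) k2 (q2 0 hq),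
      forall_ext (P := fun v => Cmp G v (X T) h) hKX (q3 0 hq)⟩,
      forall_ext (P := fun v => v ∈ ρ) (fun p hp => ?_) hl⟩
    by_contra hn
    exact hx (Or.inr ⟨hxC, Q 0, hl, K p, ⟨k2 p hp, hKX p hp⟩, hn,
      ⟨hxQ 0 hq, q2 0 hq, q3 0 hq⟩, hQK p hp⟩)

theorem Cab.robZ [Finite V] {G : SimpleGraph V} {h q R c lam : ℕ} (hh : 0 < h) (hq : 0 < q)
    {W : Set V} {T t : ℕ}
    {ty : ℕ → ℕ → Option (ℕ × ℕ)} {C : Set V} {X : ℕ → ℕ → V} {𝒦 : ℕ → Set (ℕ → V)}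
    {z : ℕ → ℕ → V} (H : Cab G h q W T t ty C X 𝒦 z) (ht : t < T)
    (hc : ∀ v, Col G {u | G.Adj u v} c) (C' : Set V) (hC' : C' ⊆ C)
    (h2 : ∀ x ∈ C', ∀ K ∈ 𝒦 t, Cmp G x K q → ∀ p < q, Cmp G (K p) (X T) h)
    (hP : ∀ x ∈ C', ∀ Q ∈ 𝒦 T, Cmp G x Q q → ∀ K ∈ 𝒦 t, Cmp G (Q 0) K q →
      ¬ ∀ p < q, Cmp G (K p) (X T) h)
    (hlam : ∀ m ∈ W, Cmp G m (X t) h →
      Col G {x | x ∈ C' ∧ ∃ Q ∈ 𝒦 T, Cmp G x Q q ∧ G.Adj (Q 0) m} lam) :
    ∃ F, Rob G R (q + 1) (R * c + R * lam + 0) W (X t 0) F C' := by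
  refine ⟨{K' | ∃ K ∈ 𝒦 t, (¬ ∀ p < q, Cmp G (K p) (X T) h) ∧ K' = ext K q (K 0)},
    (H.xc t ht.le).2 0 hh, fun x hx => H.sub (hC' hx),
    fun x hx => H.anti t ht.le x (hC' hx) 0 hh, ?_, ?_, ?_⟩
  · rintro _ ⟨K, hK, _, rfl⟩
    obtain ⟨_, k2, k3⟩ := H.kk t ht.le K hK
    exact ⟨forall_ext (P := fun v => v ∈ W) k2 (k2 0 hq),
      forall_ext (P := fun v => G.Adj (X t 0) v) (fun p hp => (k3 p hp 0 hh).symm)
        (k3 0 hq 0 hh).symm⟩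
  · rintro x hx _ ⟨K, hK, hn, rfl⟩ hxK
    refine hn (h2 x hx K hK (fun p hp => ?_))
    have := hxK p (by omega)
    rwa [ext_lt K _ hp] at this
  · intro ρ hρ hC
    have b1 := hρ.bdry hc
    have b2 := hρ.loc C' {m | m ∈ W ∧ Cmp G m (X t) h}
      (fun x a => ∃ Q ∈ 𝒦 T, Cmp G x Q q ∧ a = Q 0) lam (by
      rintro m ⟨hm, hmX⟩
      refine (hlam m hm hmX).mono ?_ le_rfl
      rintro x ⟨hx, a, ⟨Q, hQ, hxQ, rfl⟩, ham⟩
      exact ⟨hx, Q, hQ, hxQ, ham⟩)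
    obtain ⟨x, ⟨hxC, hxρ⟩, hx⟩ := nonempty_of_not_col (not_col_diff hC (b1.union b2))
    obtain ⟨Q, hQ, hxQ⟩ := H.cov T le_rfl x (hC' hxC)
    obtain ⟨K, hK, hQK⟩ := H.pend t le_rfl ht Q hQ
    obtain ⟨_, k2, k3⟩ := H.kk t ht.le K hK
    have hl : Q 0 ∈ ρ := by
      by_contra hn
      exact hx (Or.inl ⟨hxρ, _, hn, hxQ 0 hq⟩)
    have hin : ∀ p < q, K p ∈ ρ := by
      intro p hp
      by_contra hn
      exact hx (Or.inr ⟨hxC, Q 0, hl, K p, ⟨k2 p hp, k3 p hp⟩, hn, ⟨Q, hQ, hxQ, rfl⟩, hQK p hp⟩)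
    exact ⟨_, ⟨K, hK, hP x hxC Q hQ hxQ K hK hQK, rfl⟩,
      forall_ext (P := fun v => v ∈ ρ) hin (hin 0 hq)⟩

end Single

end Pool.Agent.H459Z
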