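import Pool.Agent.H459Z.Tree

/-! Graphs of bounded sim-width and bounded clique number have bounded chromatic number. -/

set_option autoImplicit false

namespace Pool.Agent.H459Z

/-- `G` has a subcubic decomposition tree all of whose cuts have induced matchings of size at
most `k`. -/
def Dec {V : Type} (G : SimpleGraph V) (k : ℕ) : Prop :=
  ∃ (m : ℕ) (T : SimpleGraph (Fin m)) (L : V → Fin m), T.IsTree ∧
    (∀ x, (T.neighborSet x).ncard ≤ 3) ∧ Function.Injective L ∧
    ∀ u w, T.Adj u w → Sim G k (L ⁻¹' side T u w)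

theorem Dec.restr {V : Type} {G : SimpleGraph V} {k : ℕ} (h : Dec G k) (U : Set V) :
    Dec (restr G U) k := by
  obtain ⟨m, T, L, h1, h2, h3, h4⟩ := h
  exact ⟨m, T, L, h1, h2, h3, fun u w huw => (h4 u w huw).restr U⟩

theorem dec_bound (k w : ℕ) : ∃ c : ℕ, ∀ (n : ℕ) (G : SimpleGraph (Fin n)), Dec G k →
    (∀ K : ℕ → Fin n, ¬ Clq G K (w + 2)) → Col G Set.univ c := by
  classical
  induction w with
  | zero =>
    refine ⟨1, fun n G _ hK => ⟨fun _ => 0, fun _ _ => Nat.zero_lt_one, fun u _ v _ huv => ?_⟩⟩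
    exfalso
    refine hK (ext (fun _ => u) 1 v) (clq_ext (fun a ha b hb hab => by omega) (fun _ _ => huv.symm))
  | succ w ih =>
    obtain ⟨c, hc⟩ := ih
    obtain ⟨R, hR⟩ := reg_of_sim k (w + 2)
    let ι : Type := Σ n : ℕ, {G : SimpleGraph (Fin n) // Dec G k ∧
      ∀ K : ℕ → Fin n, ¬ Clq G K (w + 1 + 2)}
    have S : Setup (ι := ι) (V := fun i => Fin i.1) (fun i => i.2.1) R c (w + 2) := by
      refine ⟨fun i => inferInstance, fun l N => ⟨7 ^ l * (N + 1) + (N + 1), ?_⟩, ?_,
        fun i => i.2.2.2⟩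
      · rintro ⟨n, G, ⟨m, T, L, h1, h2, h3, h4⟩, hK⟩ β C hC
        by_contra hno
        push Not at hno
        apply hC
        refine (tree_col (B := (Finset.range l).image β) (N := N + 1) h1 h2 L h3 (sim_empty G k)
          (sim_univ G k) h4 (by omega) (fun A A' hA hA' hB => ?_)).mono le_rfl ?_
        · exact (hno _ (hR _ G hK A A' hA hA') (fun j hj => hB _
            (Finset.mem_image.mpr ⟨j, Finset.mem_range.mpr hj, rfl⟩))).mono le_rfl (by omega)
        · refine Nat.add_le_add_right (Nat.mul_le_mul_right _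
            (Nat.pow_le_pow_right (by norm_num) ?_)) _
          exact Finset.card_image_le.trans (by simp)
      · rintro ⟨n, G, hD, hK⟩ v
        obtain ⟨f, f1, f2⟩ := hc n (restr G {u | G.Adj u v}) (hD.restr _) (by
          intro K hKc
          refine hK (ext K (w + 2) v) (clq_ext (fun a ha b hb hab => (hKc a ha b hb hab).1) ?_)
          intro a ha
          by_cases e : a = 0
          · exact (hKc a ha 1 (by omega) (by omega)).2.1.symm
          · exact (hKc a ha 0 (by omega) e).2.1.symm)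
        exact ⟨f, fun u _ => f1 u trivial, fun a ha b hb hab => f2 a trivial b trivial ⟨hab, ha, hb⟩⟩
    obtain ⟨N, hN⟩ := setup_bound S
    exact ⟨N, fun n G h1 h2 => hN ⟨n, G, h1, h2⟩⟩

theorem dec_chromatic (k : ℕ) : ∃ f : ℕ → ℕ, ∀ (n : ℕ) (G : SimpleGraph (Fin n)), Dec G k →
    G.chromaticNumber ≤ ((f G.cliqueNum : ℕ) : ℕ∞) := by
  classical
  choose f hf using dec_bound k
  refine ⟨f, fun n G hD => ?_⟩
  obtain ⟨g, g1, g2⟩ := hf G.cliqueNum n G hD (by
    intro K hK
    have hcl : G.IsClique ((Finset.range (G.cliqueNum + 2)).image K : Finset (Fin n)) := by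
      intro x hx y hy hxy
      simp only [Finset.coe_image, Finset.coe_range, Set.mem_image, Set.mem_Iio] at hx hy
      obtain ⟨a, ha, rfl⟩ := hx
      obtain ⟨b, hb, rfl⟩ := hy
      exact hK a ha b hb (fun e => hxy (by rw [e]))
    have h1 := SimpleGraph.IsClique.card_le_cliqueNum (tc := hcl)
    rw [Finset.card_image_of_injOn, Finset.card_range] at h1
    · omega
    · intro a ha b hb e
      by_contra hne
      exact (hK a (Finset.mem_range.mp ha) b (Finset.mem_range.mp hb) hne).ne e)
  exact SimpleGraph.Colorable.chromaticNumber_le ⟨SimpleGraph.Coloring.mk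
    (fun v => (⟨g v, g1 v trivial⟩ : Fin _))
    (fun {u v} huv e => g2 u trivial v trivial huv (congrArg Fin.val e))⟩

end Pool.Agent.H459Z
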