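import Pool.Agent.H459Z.Basic

/-! Levellings: a set of large chromatic number has a breadth-first level of large chromatic
number. -/

set_option autoImplicit false

namespace Pool.Agent.H459Z

variable {V : Type}

/-- The graph keeping only the edges inside `C`. -/
def restr (G : SimpleGraph V) (C : Set V) : SimpleGraph V where
  Adj a b := G.Adj a b ∧ a ∈ C ∧ b ∈ C
  symm := ⟨fun _ _ h => ⟨h.1.symm, h.2.2, h.2.1⟩⟩
  loopless := ⟨fun _ h => h.1.ne rfl⟩

theorem exists_pred {H : SimpleGraph V} {r x : V} {n : ℕ} (hr : H.Reachable r x)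
    (hd : H.dist r x = n + 1) : ∃ y, H.Adj y x ∧ H.Reachable r y ∧ H.dist r y = n := by
  obtain ⟨p, hp⟩ := hr.symm.exists_walk_length_eq_dist
  rw [SimpleGraph.dist_comm, hd] at hp
  cases p with
  | nil => simp at hp
  | cons h q =>
    rename_i y
    simp only [SimpleGraph.Walk.length_cons, Nat.add_right_cancel_iff] at hp
    refine ⟨y, h.symm, q.reachable.symm, ?_⟩
    have h1 : H.dist r y ≤ n := by
      rw [SimpleGraph.dist_comm, ← hp]; exact SimpleGraph.dist_le q
    have h2 := h.symm.reachable.dist_triangle_right r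
    rw [SimpleGraph.dist_eq_one_iff_adj.mpr h.symm] at h2
    omega

theorem exists_level (G : SimpleGraph V) (C : Set V) (N : ℕ) (hC : ¬ Col G C (N + N)) :
    ∃ r ∈ C, ∃ d : ℕ,
      ¬ Col G {x | x ∈ C ∧ (restr G C).Reachable r x ∧ (restr G C).dist r x = d} N := by
  classical
  by_contra hno
  push Not at hno
  set H := restr G C with hH
  let root : V → V := fun x => (H.connectedComponentMk x).out
  have hroot : ∀ x, H.Reachable (root x) x := fun x =>
    SimpleGraph.ConnectedComponent.exact (Quot.out_eq _)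
  have hrootC : ∀ x ∈ C, root x ∈ C := by
    intro x hx
    obtain ⟨p⟩ := hroot x
    generalize root x = r at p
    cases p with
    | nil => exact hx
    | cons h q => exact h.2.1
  choose! f hf1 hf2 using hno
  apply hC
  refine ⟨fun x => f (root x) (H.dist (root x) x) x +
    (if H.dist (root x) x % 2 = 0 then 0 else N), ?_, ?_⟩
  · intro x hx
    have := hf1 (root x) (hrootC x hx) _ x ⟨hx, hroot x, rfl⟩
    beta_reduce
    split_ifs <;> omega
  · intro x hx y hy hxy
    have hadj : H.Adj x y := ⟨hxy, hx, hy⟩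
    have e : root x = root y := by
      simp only [root]
      rw [SimpleGraph.ConnectedComponent.connectedComponentMk_eq_of_adj hadj]
    have hx1 := hf1 (root x) (hrootC x hx) _ x ⟨hx, hroot x, rfl⟩
    have hy1 := hf1 (root y) (hrootC y hy) _ y ⟨hy, hroot y, rfl⟩
    have h1 := hadj.reachable.dist_triangle_right (root x)
    have h2 := hadj.symm.reachable.dist_triangle_right (root x)
    rw [SimpleGraph.dist_eq_one_iff_adj.mpr hadj] at h1
    rw [SimpleGraph.dist_eq_one_iff_adj.mpr hadj.symm] at h2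
    by_cases hd : H.dist (root x) x = H.dist (root x) y
    · have := hf2 (root x) (hrootC x hx) (H.dist (root x) x) x ⟨hx, hroot x, rfl⟩ y
        ⟨hy, e ▸ hroot y, hd.symm⟩ hxy
      simp only [← e, ← hd]
      omega
    · simp only [← e] at hy1 ⊢
      split_ifs <;> omega

/-- A levelling inside `C`: a connected set `D` with root `r`, and a base `C'` at distance two. -/
def Lev (G : SimpleGraph V) (C : Set V) (r : V) (D C' : Set V) : Prop :=
  D ⊆ C ∧ C' ⊆ C ∧ (∀ x ∈ C', ∀ v ∈ D, ¬ G.Adj x v) ∧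
    (∀ x ∈ C', ∃ y ∈ C, ∃ v ∈ D, G.Adj x y ∧ G.Adj y v) ∧
    ∀ ρ : Set V, r ∉ ρ → ∀ v ∈ D, v ∈ ρ → ∃ a ∈ D, ∃ z ∈ D, a ∈ ρ ∧ z ∉ ρ ∧ G.Adj a z

theorem exists_lev (G : SimpleGraph V) {c : ℕ} (hc : ∀ v, Col G {u | G.Adj u v} c) (C : Set V)
    (N : ℕ) (hC : ¬ Col G C ((N + c + 1) + (N + c + 1))) :
    ∃ r D C', Lev G C r D C' ∧ ¬ Col G C' N := by
  obtain ⟨r, hr, d, hd⟩ := exists_level G C _ hC
  set H := restr G C with hH
  have hmem : ∀ v, H.Reachable r v → v ∈ C := by
    intro v hv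
    obtain ⟨p⟩ := hv.symm
    cases p with
    | nil => exact hr
    | cons h q => exact h.2.1
  obtain _ | _ | d := d
  · exfalso
    refine hd ((col_subsingleton G (S := {r}) Set.subsingleton_singleton).mono ?_ (by omega))
    rintro x ⟨_, h1, h2⟩
    exact (h1.dist_eq_zero_iff.mp h2).symm
  · exfalso
    refine hd ((hc r).mono ?_ (by omega))
    rintro x ⟨_, _, h2⟩
    exact (SimpleGraph.dist_eq_one_iff_adj.mp h2).1.symm
  refine ⟨r, {v | H.Reachable r v ∧ H.dist r v ≤ d}, _, ⟨fun v hv => hmem v hv.1,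
    fun x hx => hx.1, ?_, ?_, ?_⟩, fun h => hd (h.mono le_rfl (by omega))⟩
  · rintro x ⟨hx, h1, h2⟩ v ⟨h3, h4⟩ hxv
    have hadj : H.Adj v x := ⟨hxv.symm, hmem v h3, hx⟩
    have h5 := hadj.reachable.dist_triangle_right r
    rw [SimpleGraph.dist_eq_one_iff_adj.mpr hadj] at h5
    omega
  · rintro x ⟨hx, h1, h2⟩
    obtain ⟨y, hy1, hy2, hy3⟩ := exists_pred h1 h2
    obtain ⟨v, hv1, hv2, hv3⟩ := exists_pred hy2 hy3
    exact ⟨y, hy1.2.1, v, ⟨hv2, hv3.le⟩, hy1.1.symm, hv1.1.symm⟩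
  · intro ρ hρ v ⟨h1, h2⟩ hv
    induction hn : H.dist r v generalizing v with
    | zero => exact absurd ((h1.dist_eq_zero_iff.mp hn) ▸ hv) hρ
    | succ n ih =>
      obtain ⟨y, hy1, hy2, hy3⟩ := exists_pred h1 hn
      by_cases hy : y ∈ ρ
      · exact ih y hy2 (by omega) hy hy3
      · exact ⟨v, ⟨h1, h2⟩, y, ⟨hy2, by omega⟩, hv, hy, hy1.1.symm⟩

end Pool.Agent.H459Z
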