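import Pool.Agent.H459Z.Cable

/-! The main bound for families with the region property. -/

set_option autoImplicit false

namespace Pool.Agent.H459Z

variable {ι : Type} {V : ι → Type}

/-- Cables of a given shape have bases of unbounded chromatic number in the class. -/
def UnbCab (G : ∀ i, SimpleGraph (V i)) (h q : ℕ) (𝒲 : Cls V) (T t : ℕ)
    (ty : ℕ → ℕ → Option (ℕ × ℕ)) : Prop :=
  ∀ N, ∃ i W C X 𝒦 z, 𝒲 i W ∧ Cab (G i) h q W T t ty C X 𝒦 z ∧ ¬ Col (G i) C N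

theorem not_has {G : ∀ i, SimpleGraph (V i)} {𝒲 : Cls V} {h q : ℕ} (H : ¬ Has G 𝒲 h q) :
    ∃ τ, ∀ i W, 𝒲 i W → ∀ X, Clq (G i) X h → In W X h → Col (G i) (N2 (G i) W X h q) τ := by
  unfold Has at H
  push Not at H
  exact H

theorem stepA {G : ∀ i, SimpleGraph (V i)} {R c w h q : ℕ} (S : Setup G R c w) (hh : 0 < h)
    (hq : 0 < q) {𝒲 : Cls V} (H1 : ¬ Has G 𝒲 (h + 1) 1) (HR : ¬ HasRob G R 𝒲 (q + 1))
    {T t : ℕ} (ht : t < T) {ty : ℕ → ℕ → Option (ℕ × ℕ)} (hU : UnbCab G h q 𝒲 T t ty) :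
    ∃ ty', UnbCab G h q 𝒲 T (t + 1) ty' := by
  classical
  by_contra hno
  have hb : ∀ o : Option (ℕ × ℕ), ∃ N, ∀ i W C X 𝒦 z, 𝒲 i W →
      Cab (G i) h q W T (t + 1) (upd ty t T o) C X 𝒦 z → Col (G i) C N := by
    intro o
    by_contra hn
    push Not at hn
    exact hno ⟨_, hn⟩
  choose Nf hNf using hb
  obtain ⟨τ, hτ⟩ := not_has H1
  unfold HasRob at HR
  push Not at HR
  obtain ⟨NP, hNP⟩ := HR (R * c + R * (c + τ) + 0)
  obtain ⟨NZ, hNZ⟩ := HR (R * c + R * (Nf none + c + τ) + 0)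
  set A := Finset.range q ×ˢ Finset.range h with hA
  set N1 := A.sup (fun o => Nf (some o)) with hN1
  obtain ⟨i, W, C, X, 𝒦, z, hW, H, hC⟩ := hU (A.card * N1 + NP + NZ)
  have := S.fin i
  have c1 := col_biUnion (G := G i) A (fun o =>
    {x | x ∈ C ∧ ∃ K ∈ 𝒦 t, Cmp (G i) x K q ∧ ¬ (G i).Adj (K o.1) (X T o.2)}) N1 (by
      rintro ⟨p, a⟩ ho
      have ho' := Finset.mem_product.mp ho
      obtain ⟨𝒦', z', H'⟩ := H.type1 (Finset.mem_range.mp ho'.1) (Finset.mem_range.mp ho'.2)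
      exact (hNf _ i W _ X 𝒦' z' hW H').mono le_rfl
        (Finset.le_sup (f := fun o => Nf (some o)) ho))
  obtain ⟨FP, hFP⟩ := H.robP (R := R) hh hq ht (S.nbr i) (hτ i W hW)
  have c2 := hNP i W hW _ _ _ hFP
  have hC' := not_col_diff hC (c1.union c2)
  apply hC'
  have h2 : ∀ x ∈ C \ ({x | ∃ o ∈ A, x ∈ {x | x ∈ C ∧ ∃ K ∈ 𝒦 t, Cmp (G i) x K q ∧
      ¬ (G i).Adj (K o.1) (X T o.2)}} ∪ {x | x ∈ C ∧ ∃ Q ∈ 𝒦 T, Cmp (G i) x Q q ∧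
        ∃ K ∈ 𝒦 t, Cmp (G i) (Q 0) K q ∧ ∀ p < q, Cmp (G i) (K p) (X T) h}),
      ∀ K ∈ 𝒦 t, Cmp (G i) x K q → ∀ p < q, Cmp (G i) (K p) (X T) h := by
    intro x hx K hK hxK p hp a ha
    by_contra hn
    exact hx.2 (Or.inl ⟨(p, a), Finset.mem_product.mpr
      ⟨Finset.mem_range.mpr hp, Finset.mem_range.mpr ha⟩, hx.1, K, hK, hxK, hn⟩)
  obtain ⟨FZ, hFZ⟩ := H.robZ (R := R) (lam := Nf none + c + τ) hh hq ht (S.nbr i) _
    (fun x hx => hx.1) h2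
    (fun x hx Q hQ hxQ K hK hQK hKX => hx.2 (Or.inr ⟨hx.1, Q, hQ, hxQ, K, hK, hQK, hKX⟩)) (by
      intro m hm hmX
      obtain ⟨𝒦', z', H'⟩ := H.type2 ht m
      refine (((hNf _ i W _ X 𝒦' z' hW H').union (S.nbr i m)).union
        (hτ i W hW (ext (X t) h m) (clq_ext (H.xc t ht.le).1 hmX)
          (forall_ext (P := fun v => v ∈ W) (H.xc t ht.le).2 hm))).mono ?_ le_rfl
      rintro x ⟨hx, hQ⟩
      by_cases k1 : (G i).Adj x m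
      · exact Or.inl (Or.inr k1)
      · by_cases k2 : x ∈ N2 (G i) W (ext (X t) h m) (h + 1) 1
        · exact Or.inr k2
        · exact Or.inl (Or.inl ⟨hx.1, h2 x hx, hQ, k1, k2⟩))
  exact hNZ i W hW _ _ _ hFZ

theorem stepB {G : ∀ i, SimpleGraph (V i)} {h q : ℕ} (hq : 0 < q) {𝒲 : Cls V}
    (HC : ∀ 𝒲', Sub 𝒲' 𝒲 → Unb G 𝒲' → Has G 𝒲' h q) (H2 : ¬ Has G 𝒲 h (q + 1))
    {T : ℕ} {ty : ℕ → ℕ → Option (ℕ × ℕ)} (hU : UnbCab G h q 𝒲 T T ty) :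
    UnbCab G h q 𝒲 (T + 1) 0 ty := by
  obtain ⟨τ, hτ⟩ := not_has H2
  have H := HC (fun i C => ∃ W X 𝒦 z, 𝒲 i W ∧ Cab (G i) h q W T T ty C X 𝒦 z)
    (fun i C ⟨W, _, _, _, h1, h2⟩ => ⟨W, h1, h2.sub⟩) (fun N => by
      obtain ⟨i, W, C, X, 𝒦, z, h1, h2, h3⟩ := hU N
      exact ⟨i, C, ⟨W, X, 𝒦, z, h1, h2⟩, h3⟩)
  intro N
  obtain ⟨i, C, ⟨W, X, 𝒦, z, h1, h2⟩, X', h3, h4, h5⟩ := H (τ + N)
  exact ⟨i, W, _, _, _, _, h1, h2.newLayer hq h3 h4,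
    not_col_diff h5 (hτ i W h1 X' h3 (fun a ha => h2.sub (h4 a ha)))⟩

theorem cab_exists {G : ∀ i, SimpleGraph (V i)} {R c w h q : ℕ} (S : Setup G R c w) (hh : 0 < h)
    (hq : 0 < q) {𝒲 : Cls V} (hU : Unb G 𝒲)
    (HC : ∀ 𝒲', Sub 𝒲' 𝒲 → Unb G 𝒲' → Has G 𝒲' h q) (H1 : ¬ Has G 𝒲 (h + 1) 1)
    (H2 : ¬ Has G 𝒲 h (q + 1)) (HR : ¬ HasRob G R 𝒲 (q + 1)) (T : ℕ) :
    ∃ ty, UnbCab G h q 𝒲 T 0 ty := by
  induction T with
  | zero =>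
    obtain ⟨τ, hτ⟩ := not_has H2
    refine ⟨fun _ _ => none, fun N => ?_⟩
    obtain ⟨i, W, h1, X, h2, h3, h4⟩ := HC 𝒲 (Sub.refl _) hU (τ + N)
    exact ⟨i, W, _, _, _, _, h1, Cab.base (G i) h2 h3 _, not_col_diff h4 (hτ i W h1 X h2 h3)⟩
  | succ T ih =>
    have key : ∀ t ≤ T, ∃ ty, UnbCab G h q 𝒲 T t ty := by
      intro t
      induction t with
      | zero => exact fun _ => ih
      | succ t iht =>
        intro ht
        obtain ⟨ty, hty⟩ := iht (by omega)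
        exact stepA S hh hq H1 HR (by omega) hty
    obtain ⟨ty, hty⟩ := key T le_rfl
    exact ⟨ty, stepB hq HC H2 hty⟩

theorem cab_final {G : ∀ i, SimpleGraph (V i)} {R c w h q : ℕ} (S : Setup G R c w)
    (hq : 0 < q) {𝒲 : Cls V} (H : ∀ T, ∃ ty, UnbCab G h q 𝒲 T 0 ty) : False := by
  classical
  obtain ⟨T, hT⟩ := ramsey (insert none ((Finset.range q ×ˢ Finset.range h).image some)) (2 * R)
  obtain ⟨ty, hty⟩ := H T
  obtain ⟨M, hM⟩ := S.pick R (R * c + 0)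
  obtain ⟨i, W, C, X, 𝒦, z, _, Hc, hC⟩ := hty M
  have := S.fin i
  have htyped : ∀ a b, a < b → b < T → Typed T 0 a b := fun a b h1 h2 => ⟨h1, Or.inl h2⟩
  obtain ⟨γ, _, s, hs1, hs2⟩ := hT ty (by
    intro a b hab hb
    rcases e : ty a b with _ | ⟨p, a'⟩
    · exact Finset.mem_insert_self _ _
    · obtain ⟨k1, k2, _⟩ := Hc.ty1 a b p a' (htyped a b hab hb) e
      exact Finset.mem_insert_of_mem (Finset.mem_image.mpr ⟨(p, a'), Finset.mem_product.mpr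
        ⟨Finset.mem_range.mpr k1, Finset.mem_range.mpr k2⟩, rfl⟩))
  have pickx : ∀ β : ℕ → V i, ∃ ρ, Reg (G i) R ρ ∧ (∀ l < R, β l ∉ ρ) ∧
      ∃ x ∈ C, ∃ K : ℕ → ℕ → V i, ∀ j ≤ T, K j ∈ 𝒦 j ∧ ∀ p < q, (G i).Adj x (K j p) ∧ K j p ∈ ρ := by
    intro β
    obtain ⟨ρ, hρ, hβ, hCρ⟩ := hM i β C hC
    obtain ⟨x, ⟨hxC, hxρ⟩, hx⟩ := nonempty_of_not_col (not_col_diff hCρ (hρ.bdry (S.nbr i)))
    have : Nonempty (V i) := ⟨x⟩
    have hcov := fun j hj => Hc.cov j hj x hxC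
    choose! K hK1 hK2 using hcov
    refine ⟨ρ, hρ, hβ, x, hxC, K, fun j hj => ⟨hK1 j hj, fun p hp => ⟨hK2 j hj p hp, ?_⟩⟩⟩
    by_contra hn
    exact hx ⟨hxρ, _, hn, hK2 j hj p hp⟩
  rcases γ with _ | ⟨p, a⟩
  · obtain ⟨ρ, hρ, hβ, x, hx, K, hK⟩ := pickx (fun g => z (s (2 * g)) (s (2 * g + 1)))
    have hT2 : ∀ a b, a < b → b < 2 * R → _ := fun a b hab hb =>
      Hc.ty2 (s a) (s b) (htyped _ _ (hs2 a b hab hb).1 (hs1 b hb)) (hs2 a b hab hb).2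
    have hKg : ∀ g < R, _ := fun g hg => hK (s (2 * g + 1)) (hs1 (2 * g + 1) (by omega)).le
    apply hρ
    refine ⟨fun g => K (s (2 * g + 1)) 0, fun g => z (s (2 * g)) (s (2 * g + 1)),
      fun g hg => ⟨((hKg g hg).2 0 hq).2, hβ g hg⟩, fun l hl m hm => ⟨fun hadj => ?_, fun e => ?_⟩⟩
    · by_contra hne
      obtain ⟨_, _, k3, _, k5⟩ := hT2 (2 * m) (2 * m + 1) (by omega) (by omega)
      rcases lt_or_gt_of_ne hne with hlt | hlt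
      · refine k5 x hx _ ((Hc.kk _ (hs1 (2 * l + 1) (by omega)).le _ (hKg l hl).1).2.1 0 hq)
          ((hKg l hl).2 0 hq).1 ?_ hadj
        exact (hT2 (2 * l + 1) (2 * m) (by omega) (by omega)).1 _ (hKg l hl).1 0 hq
      · exact k3 _ (hs2 (2 * m + 1) (2 * l + 1) (by omega) (by omega)).1
          (hs1 (2 * l + 1) (by omega)).le _ (hKg l hl).1 hadj
    · subst e
      exact (hT2 (2 * l) (2 * l + 1) (by omega) (by omega)).2.1 _ (hKg l hl).1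
  · obtain ⟨ρ, hρ, hβ, x, hx, K, hK⟩ := pickx (fun g => X (s g) a)
    have hT1 : ∀ a' b, a' < b → b < 2 * R → _ := fun a' b hab hb =>
      Hc.ty1 (s a') (s b) p a (htyped _ _ (hs2 a' b hab hb).1 (hs1 b hb)) (hs2 a' b hab hb).2
    have hKg : ∀ g < R, _ := fun g hg => hK (s g) (hs1 g (by omega)).le
    apply hρ
    rcases Nat.eq_zero_or_pos R with hR | hR
    · exact ⟨fun _ => x, fun _ => x, fun l hl => by omega, fun l hl => by omega⟩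
    obtain ⟨hp, ha, _⟩ := hT1 0 1 (by omega) (by omega)
    refine ⟨fun g => K (s g) p, fun g => X (s g) a,
      fun g hg => ⟨((hKg g hg).2 p hp).2, hβ g hg⟩, fun l hl m hm => ⟨fun hadj => ?_, fun e => ?_⟩⟩
    · by_contra hne
      rcases lt_or_gt_of_ne hne with hlt | hlt
      · exact (hT1 l m hlt (by omega)).2.2 _ (hKg l hl).1 hadj
      · exact Hc.low _ _ (hs2 m l hlt (by omega)).1 (hs1 l (by omega)).le _ (hKg l hl).1 p hp a ha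
          hadj
    · subst e
      exact (Hc.kk _ (hs1 l (by omega)).le _ (hKg l hl).1).2.2 p hp a ha

theorem setup_bound {G : ∀ i, SimpleGraph (V i)} {R c w : ℕ} (S : Setup G R c w) :
    ∃ N, ∀ i, Col (G i) Set.univ N := by
  by_contra hno
  push Not at hno
  have hU : Unb G (fun _ W => W = Set.univ) := fun N => by
    obtain ⟨i, hi⟩ := hno N
    exact ⟨i, _, rfl, hi⟩
  obtain ⟨h, hh, 𝒲₁, _, u1, n1, c1⟩ := minimize G (fun 𝒲 h => Has G 𝒲 h 1) w 1 _ hU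
    (fun 𝒲' _ u => has_one_one S u) (by
      intro H
      obtain ⟨i, _, _, X, hX, _⟩ := H 0
      rw [Nat.add_comm] at hX
      exact S.cf i X hX)
  obtain ⟨q, hq, 𝒲₂, s2, u2, n2, c2⟩ := minimize G (fun 𝒲 q => Has G 𝒲 h q) w 1 _ u1 c1 (by
      intro H
      obtain ⟨i, _, _, X, _, _, hX⟩ := H 0
      obtain ⟨x, _, _, K, hK, _⟩ := nonempty_of_not_col hX
      rw [Nat.add_comm] at hK
      exact S.cf i K hK)
  by_cases hR : ∀ 𝒲', Sub 𝒲' 𝒲₂ → Unb G 𝒲' → HasRob G R 𝒲' (q + 1)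
  · exact rob_final S u2 hR
  push Not at hR
  obtain ⟨𝒲₃, s3, u3, n3⟩ := hR
  exact cab_final S hq (cab_exists S hh hq u3 (fun 𝒲' h1 h2 => c2 𝒲' (h1.trans s3) h2)
    (fun H => n1 (H.mono (s3.trans s2))) (fun H => n2 (H.mono s3)) n3)

end Pool.Agent.H459Z
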