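import Pool.Agent.H459Z.Level

/-! Families of graphs with the region property; classes of vertex sets; second neighbourhoods. -/

set_option autoImplicit false

namespace Pool.Agent.H459Z

section Single
variable {V : Type}

/-- The first `n` values of `K` are pairwise adjacent. -/
def Clq (G : SimpleGraph V) (K : ℕ → V) (n : ℕ) : Prop :=
  ∀ a < n, ∀ b < n, a ≠ b → G.Adj (K a) (K b)

/-- The first `n` values of `K` lie in `W`. -/
def In (W : Set V) (K : ℕ → V) (n : ℕ) : Prop := ∀ a < n, K a ∈ W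

/-- `x` is adjacent to the first `n` values of `K`. -/
def Cmp (G : SimpleGraph V) (x : V) (K : ℕ → V) (n : ℕ) : Prop := ∀ a < n, G.Adj x (K a)

/-- `x` is adjacent to none of the first `n` values of `K`. -/
def Anti (G : SimpleGraph V) (x : V) (K : ℕ → V) (n : ℕ) : Prop := ∀ a < n, ¬ G.Adj x (K a)

/-- Vertices of `W` with no neighbour in the `h`-clique `X` which are complete to a `q`-clique of
common neighbours of `X` in `W`. -/
def N2 (G : SimpleGraph V) (W : Set V) (X : ℕ → V) (h q : ℕ) : Set V :=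
  {x | x ∈ W ∧ Anti G x X h ∧
    ∃ K, Clq G K q ∧ In W K q ∧ (∀ p < q, Cmp G (K p) X h) ∧ Cmp G x K q}

theorem N2_mono (G : SimpleGraph V) {W W' : Set V} (hW : W ⊆ W') (X : ℕ → V) (h q : ℕ) :
    N2 G W X h q ⊆ N2 G W' X h q := by
  rintro x ⟨h1, h2, K, h3, h4, h5, h6⟩
  exact ⟨hW h1, h2, K, h3, fun a ha => hW (h4 a ha), h5, h6⟩

/-- A robust layer inside `W` with centre `β`, family `F` of `r`-tuples and base `C`. -/
def Rob (G : SimpleGraph V) (R r Λ : ℕ) (W : Set V) (β : V) (F : Set (ℕ → V)) (C : Set V) :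
    Prop :=
  β ∈ W ∧ C ⊆ W ∧ (∀ x ∈ C, ¬ G.Adj x β) ∧ (∀ K ∈ F, In W K r ∧ Cmp G β K r) ∧
    (∀ x ∈ C, ∀ K ∈ F, ¬ Cmp G x K r) ∧
    ∀ ρ, Reg G R ρ → ¬ Col G (C ∩ ρ) Λ → ∃ K ∈ F, In ρ K r

end Single

variable {ι : Type} {V : ι → Type}

/-- The standing hypotheses on a family of graphs. -/
structure Setup (G : ∀ i, SimpleGraph (V i)) (R c w : ℕ) : Prop where
  fin : ∀ i, Finite (V i)
  pick : ∀ k N : ℕ, ∃ M : ℕ, ∀ i (β : ℕ → V i) (C : Set (V i)), ¬ Col (G i) C M →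
    ∃ ρ, Reg (G i) R ρ ∧ (∀ l < k, β l ∉ ρ) ∧ ¬ Col (G i) (C ∩ ρ) N
  nbr : ∀ i v, Col (G i) {u | (G i).Adj u v} c
  cf : ∀ i (K : ℕ → V i), ¬ Clq (G i) K (w + 1)

/-- A class of vertex sets in the graphs of the family. -/
abbrev Cls (V : ι → Type) := ∀ i, Set (V i) → Prop

/-- The class has unbounded chromatic number. -/
def Unb (G : ∀ i, SimpleGraph (V i)) (𝒲 : Cls V) : Prop :=
  ∀ N, ∃ i W, 𝒲 i W ∧ ¬ Col (G i) W N

/-- Every member of the first class is a subset of a member of the second. -/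
def Sub (𝒲' 𝒲 : Cls V) : Prop := ∀ i W', 𝒲' i W' → ∃ W, 𝒲 i W ∧ W' ⊆ W

theorem Sub.refl (𝒲 : Cls V) : Sub 𝒲 𝒲 := fun _ W h => ⟨W, h, le_rfl⟩

theorem Sub.trans {𝒲₁ 𝒲₂ 𝒲₃ : Cls V} (h : Sub 𝒲₁ 𝒲₂) (h' : Sub 𝒲₂ 𝒲₃) : Sub 𝒲₁ 𝒲₃ := by
  intro i W hW
  obtain ⟨W', h1, h2⟩ := h i W hW
  obtain ⟨W'', h3, h4⟩ := h' i W' h1
  exact ⟨W'', h3, h2.trans h4⟩

/-- Second neighbourhoods of type `(h, q)` have unbounded chromatic number in the class. -/
def Has (G : ∀ i, SimpleGraph (V i)) (𝒲 : Cls V) (h q : ℕ) : Prop :=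
  ∀ N, ∃ i W, 𝒲 i W ∧ ∃ X, Clq (G i) X h ∧ In W X h ∧ ¬ Col (G i) (N2 (G i) W X h q) N

theorem Has.mono {G : ∀ i, SimpleGraph (V i)} {𝒲' 𝒲 : Cls V} {h q : ℕ} (hs : Sub 𝒲' 𝒲)
    (H : Has G 𝒲' h q) : Has G 𝒲 h q := by
  intro N
  obtain ⟨i, W', h1, X, h2, h3, h4⟩ := H N
  obtain ⟨W, h5, h6⟩ := hs i W' h1
  exact ⟨i, W, h5, X, h2, fun a ha => h6 (h3 a ha),
    fun hc => h4 (hc.mono (N2_mono _ h6 X h q) le_rfl)⟩

/-- Robust layers with a fixed constant have bases of unbounded chromatic number in the class. -/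
def HasRob (G : ∀ i, SimpleGraph (V i)) (R : ℕ) (𝒲 : Cls V) (r : ℕ) : Prop :=
  ∃ Λ, ∀ N, ∃ i W, 𝒲 i W ∧ ∃ β F C, Rob (G i) R r Λ W β F C ∧ ¬ Col (G i) C N

theorem minimize (G : ∀ i, SimpleGraph (V i)) (P : Cls V → ℕ → Prop) (d : ℕ) :
    ∀ (n : ℕ) (𝒲 : Cls V), Unb G 𝒲 → (∀ 𝒲', Sub 𝒲' 𝒲 → Unb G 𝒲' → P 𝒲' n) →
      ¬ P 𝒲 (n + d) → ∃ m, n ≤ m ∧ ∃ 𝒲₁, Sub 𝒲₁ 𝒲 ∧ Unb G 𝒲₁ ∧ ¬ P 𝒲₁ (m + 1) ∧
        ∀ 𝒲', Sub 𝒲' 𝒲₁ → Unb G 𝒲' → P 𝒲' m := by
  induction d with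
  | zero => intro n 𝒲 hU hP hn; exact absurd (hP 𝒲 (Sub.refl _) hU) hn
  | succ d ih =>
    intro n 𝒲 hU hP hn
    by_cases hall : ∀ 𝒲', Sub 𝒲' 𝒲 → Unb G 𝒲' → P 𝒲' (n + 1)
    · obtain ⟨m, hm, h⟩ := ih (n + 1) 𝒲 hU hall (by
        rw [show n + 1 + d = n + (d + 1) by omega]; exact hn)
      exact ⟨m, by omega, h⟩
    · push Not at hall
      obtain ⟨𝒲₁, h1, h2, h3⟩ := hall
      exact ⟨n, le_rfl, 𝒲₁, h1, h2, h3, fun 𝒲' h4 h5 => hP 𝒲' (h4.trans h1) h5⟩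

/-- A chain of `T` nested levellings in `W` with base `C`. -/
def LChain {V : Type} (G : SimpleGraph V) (W : Set V) (T : ℕ) (C : Set V) : Prop :=
  C ⊆ W ∧ ∃ (r : ℕ → V) (D : ℕ → Set V), (∀ l < T, D l ⊆ W) ∧
    (∀ l < T, ∀ x ∈ C, ∀ v ∈ D l, ¬ G.Adj x v) ∧
    (∀ l < T, ∀ x ∈ C, ∃ y ∈ W, ∃ v ∈ D l, G.Adj x y ∧ G.Adj y v) ∧
    (∀ l < T, ∀ ρ : Set V, r l ∉ ρ → ∀ v ∈ D l, v ∈ ρ →
      ∃ a ∈ D l, ∃ z ∈ D l, a ∈ ρ ∧ z ∉ ρ ∧ G.Adj a z) ∧
    ∀ l m, l < m → m < T → ∀ u ∈ D l, ∀ v ∈ D m, ¬ G.Adj v u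

theorem lchain_exists {G : ∀ i, SimpleGraph (V i)} {R c w : ℕ} (S : Setup G R c w) {𝒲 : Cls V}
    (hU : Unb G 𝒲) (T : ℕ) : ∀ N, ∃ i W C, 𝒲 i W ∧ LChain (G i) W T C ∧ ¬ Col (G i) C N := by
  induction T with
  | zero =>
    intro N
    obtain ⟨i, W, h1, h2⟩ := hU N
    obtain ⟨v, _⟩ := nonempty_of_not_col h2
    exact ⟨i, W, W, h1, ⟨le_rfl, fun _ => v, fun _ => ∅, by simp, by simp, by simp, by simp,
      by simp⟩, h2⟩
  | succ T ih =>
    intro N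
    obtain ⟨i, W, C, h1, ⟨hCW, r, D, d1, d2, d3, d4, d5⟩, h2⟩ := ih ((N + c + 1) + (N + c + 1))
    obtain ⟨r', D', C', ⟨e1, e2, e3, e4, e5⟩, h3⟩ := exists_lev (G i) (S.nbr i) C N h2
    refine ⟨i, W, C', h1, ⟨e2.trans hCW, fun l => if l = T then r' else r l,
      fun l => if l = T then D' else D l, ?_, ?_, ?_, ?_, ?_⟩, h3⟩
    · intro l hl
      by_cases e : l = T
      · simp only [e, if_true]; exact e1.trans hCW
      · simp only [e, if_false]; exact d1 l (by omega)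
    · intro l hl x hx
      by_cases e : l = T
      · simp only [e, if_true]; exact e3 x hx
      · simp only [e, if_false]; exact d2 l (by omega) x (e2 hx)
    · intro l hl x hx
      by_cases e : l = T
      · simp only [e, if_true]
        obtain ⟨y, hy, v, hv, h⟩ := e4 x hx
        exact ⟨y, hCW hy, v, hv, h⟩
      · simp only [e, if_false]; exact d3 l (by omega) x (e2 hx)
    · intro l hl
      by_cases e : l = T
      · simp only [e, if_true]; exact e5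
      · simp only [e, if_false]; exact d4 l (by omega)
    · intro l m hlm hm
      have el : l ≠ T := by omega
      by_cases e : m = T
      · simp only [e, el, if_true, if_false]
        intro u hu v hv
        exact d2 l (by omega) v (e1 hv) u hu
      · simp only [e, el, if_false]; exact d5 l m hlm (by omega)

theorem has_one_one {G : ∀ i, SimpleGraph (V i)} {R c w : ℕ} (S : Setup G R c w) {𝒲 : Cls V}
    (hU : Unb G 𝒲) : Has G 𝒲 1 1 := by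
  by_contra hno
  unfold Has at hno
  push Not at hno
  obtain ⟨τ, hτ⟩ := hno
  obtain ⟨M, hM⟩ := S.pick R (R * c + R * (c + τ) + 0)
  obtain ⟨i, W, C, h1, ⟨hCW, r, D, d1, d2, d3, d4, d5⟩, h2⟩ := lchain_exists S hU R M
  have := S.fin i
  obtain ⟨ρ, hρ, hr, hC⟩ := hM i r C h2
  have b1 := hρ.bdry (S.nbr i)
  have b2 := hρ.loc C W (fun x a => (G i).Adj x a ∧ a ∈ W) (c + τ) (by
    intro z hz
    refine ((S.nbr i z).union (hτ i W h1 (fun _ => z) (fun a ha b hb hab => by omega)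
      (fun _ _ => hz))).mono ?_ le_rfl
    rintro x ⟨hx, a, ⟨hxa, ha⟩, haz⟩
    by_cases hxz : (G i).Adj x z
    · exact Or.inl hxz
    · exact Or.inr ⟨hCW hx, fun _ _ => hxz, fun _ => a, fun a ha b hb hab => by omega,
        fun _ _ => ha, fun _ _ _ _ => haz, fun _ _ => hxa⟩)
  obtain ⟨x, ⟨hxC, hxρ⟩, hx⟩ := nonempty_of_not_col (not_col_diff hC (b1.union b2))
  have key : ∀ l < R, ∃ a ∈ D l, ∃ z ∈ D l, a ∈ ρ ∧ z ∉ ρ ∧ (G i).Adj a z := by
    intro l hl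
    obtain ⟨y, hy, v, hv, hxy, hyv⟩ := d3 l hl x hxC
    have hyρ : y ∈ ρ := by
      by_contra hn
      exact hx (Or.inl ⟨hxρ, y, hn, hxy⟩)
    have hvρ : v ∈ ρ := by
      by_contra hn
      exact hx (Or.inr ⟨hxC, y, hyρ, v, d1 l hl hv, hn, ⟨hxy, hy⟩, hyv⟩)
    exact d4 l hl ρ (hr l hl) v hv hvρ
  have : Nonempty (V i) := ⟨x⟩
  choose! a ha z hz k1 k2 k3 using key
  apply hρ
  refine ⟨a, z, fun l hl => ⟨k1 l hl, k2 l hl⟩, fun l hl m hm => ⟨fun h => ?_, fun h => ?_⟩⟩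
  · by_contra hne
    rcases lt_or_gt_of_ne hne with hlt | hlt
    · exact d5 l m hlt hm _ (ha l hl) _ (hz m hm) h.symm
    · exact d5 m l hlt hl _ (hz m hm) _ (ha l hl) h
  · subst h; exact k3 l hl

/-- A chain of `T` nested robust layers in `W` with base `C`. -/
def RChain {V : Type} (G : SimpleGraph V) (R r Λ : ℕ) (W : Set V) (T : ℕ) (C : Set V) : Prop :=
  C ⊆ W ∧ ∃ (β : ℕ → V) (F : ℕ → Set (ℕ → V)),
    (∀ l < T, ∀ x ∈ C, ¬ G.Adj x (β l)) ∧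
    (∀ l < T, ∀ K ∈ F l, Cmp G (β l) K r) ∧
    (∀ l < T, ∀ x ∈ C, ∀ K ∈ F l, ¬ Cmp G x K r) ∧
    (∀ l < T, ∀ ρ, Reg G R ρ → ¬ Col G (C ∩ ρ) Λ → ∃ K ∈ F l, In ρ K r) ∧
    (∀ l m, l < m → m < T → ∀ K ∈ F m, Anti G (β l) K r) ∧
    ∀ l m, l < m → m < T → ∀ K ∈ F l, ¬ Cmp G (β m) K r

theorem rchain_exists {G : ∀ i, SimpleGraph (V i)} {R r : ℕ} {𝒲 : Cls V} (hU : Unb G 𝒲)
    (hR : ∀ 𝒲', Sub 𝒲' 𝒲 → Unb G 𝒲' → HasRob G R 𝒲' r) (T : ℕ) :
    ∃ Λ, ∀ N, ∃ i W C, 𝒲 i W ∧ RChain (G i) R r Λ W T C ∧ ¬ Col (G i) C N := by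
  induction T with
  | zero =>
    refine ⟨0, fun N => ?_⟩
    obtain ⟨i, W, h1, h2⟩ := hU N
    obtain ⟨v, _⟩ := nonempty_of_not_col h2
    exact ⟨i, W, W, h1, ⟨le_rfl, fun _ => v, fun _ => ∅, by simp, by simp, by simp, by simp,
      by simp, by simp⟩, h2⟩
  | succ T ih =>
    obtain ⟨Λ, hΛ⟩ := ih
    obtain ⟨Λ', hΛ'⟩ := hR (fun i C => ∃ W, 𝒲 i W ∧ RChain (G i) R r Λ W T C)
      (fun i C ⟨W, h1, h2⟩ => ⟨W, h1, h2.1⟩) (fun N => by
        obtain ⟨i, W, C, h1, h2, h3⟩ := hΛ N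
        exact ⟨i, C, ⟨W, h1, h2⟩, h3⟩)
    refine ⟨Λ + Λ', fun N => ?_⟩
    obtain ⟨i, C, ⟨W, h1, hCW, β, F, d1, d2, d3, d4, d5, d6⟩, β', F', C',
      ⟨e1, e2, e3, e4, e5, e6⟩, h3⟩ := hΛ' N
    refine ⟨i, W, C', h1, ⟨e2.trans hCW, fun l => if l = T then β' else β l,
      fun l => if l = T then F' else F l, ?_, ?_, ?_, ?_, ?_, ?_⟩, h3⟩
    · intro l hl x hx
      by_cases e : l = T
      · simp only [e, if_true]; exact e3 x hx
      · simp only [e, if_false]; exact d1 l (by omega) x (e2 hx)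
    · intro l hl
      by_cases e : l = T
      · simp only [e, if_true]; exact fun K hK => (e4 K hK).2
      · simp only [e, if_false]; exact d2 l (by omega)
    · intro l hl x hx
      by_cases e : l = T
      · simp only [e, if_true]; exact e5 x hx
      · simp only [e, if_false]; exact d3 l (by omega) x (e2 hx)
    · intro l hl ρ hρ hc
      by_cases e : l = T
      · simp only [e, if_true]
        exact e6 ρ hρ (fun h => hc (h.mono le_rfl (by omega)))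
      · simp only [e, if_false]
        exact d4 l (by omega) ρ hρ
          (fun h => hc (h.mono (Set.inter_subset_inter_left _ e2) (by omega)))
    · intro l m hlm hm
      have el : l ≠ T := by omega
      by_cases e : m = T
      · simp only [e, el, if_true, if_false]
        intro K hK a ha hadj
        exact d1 l (by omega) _ ((e4 K hK).1 a ha) hadj.symm
      · simp only [e, el, if_false]; exact d5 l m hlm (by omega)
    · intro l m hlm hm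
      have el : l ≠ T := by omega
      by_cases e : m = T
      · simp only [e, el, if_true, if_false]
        exact d3 l (by omega) β' e1
      · simp only [e, el, if_false]; exact d6 l m hlm (by omega)

theorem rob_final {G : ∀ i, SimpleGraph (V i)} {R c w r : ℕ} (S : Setup G R c w) {𝒲 : Cls V}
    (hU : Unb G 𝒲) (hR : ∀ 𝒲', Sub 𝒲' 𝒲 → Unb G 𝒲' → HasRob G R 𝒲' r) : False := by
  classical
  obtain ⟨T, hT⟩ := ramsey (Finset.range r) R
  obtain ⟨Λ, hΛ⟩ := rchain_exists hU hR T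
  obtain ⟨M, hM⟩ := S.pick T Λ
  obtain ⟨i, W, C, h1, ⟨hCW, β, F, d1, d2, d3, d4, d5, d6⟩, h2⟩ := hΛ M
  obtain ⟨ρ, hρ, hr, hC⟩ := hM i β C h2
  have key : ∀ l < T, ∃ K ∈ F l, In ρ K r := fun l hl => d4 l hl ρ hρ hC
  have : Nonempty (V i) := ⟨β 0⟩
  choose! K hK hKρ using key
  have key2 : ∀ l m, l < m → m < T → ∃ a < r, ¬ (G i).Adj (β m) (K l a) := by
    intro l m hlm hm
    have := d6 l m hlm hm (K l) (hK l (by omega))
    unfold Cmp at this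
    push Not at this
    exact this
  choose! f hf1 hf2 using key2
  obtain ⟨γ, hγ, s, hs1, hs2⟩ := hT f (fun l m hlm hm => Finset.mem_range.mpr (hf1 l m hlm hm))
  have hγ' := Finset.mem_range.mp hγ
  apply hρ
  refine ⟨fun l => K (s l) γ, fun l => β (s l), fun l hl =>
    ⟨hKρ _ (hs1 l hl) γ hγ', hr _ (hs1 l hl)⟩, fun l hl m hm => ⟨fun h => ?_, fun h => ?_⟩⟩
  · by_contra hne
    rcases lt_or_gt_of_ne hne with hlt | hlt
    · obtain ⟨k1, k2⟩ := hs2 l m hlt hm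
      have := hf2 _ _ k1 (hs1 m hm)
      rw [k2] at this
      exact this h.symm
    · obtain ⟨k1, _⟩ := hs2 m l hlt hl
      exact d5 _ _ k1 (hs1 l hl) _ (hK _ (hs1 l hl)) γ hγ' h.symm
  · subst h
    exact (d2 _ (hs1 l hl) _ (hK _ (hs1 l hl)) γ hγ').symm

end Pool.Agent.H459Z
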