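import Pool.Agent.H459Z.Main

/-! Branch decompositions give regions. -/

set_option autoImplicit false

namespace Pool.Agent.H459Z

variable {V : Type}

/-- Every induced matching crossing from `A` to its complement has at most `k` edges. -/
def Sim (G : SimpleGraph V) (k : ℕ) (A : Set V) : Prop :=
  ∀ (t : ℕ) (a b : Fin t → V), Function.Injective a → Function.Injective b →
    (∀ i, a i ∈ A) → (∀ i, b i ∉ A) → (∀ i, G.Adj (a i) (b i)) →
    (∀ i j, i ≠ j → ¬ G.Adj (a i) (a j) ∧ ¬ G.Adj (b i) (b j) ∧ ¬ G.Adj (a i) (b j)) → t ≤ k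

theorem sim_univ (G : SimpleGraph V) (k : ℕ) : Sim G k Set.univ := by
  intro t a b _ _ _ hb _ _
  rcases Nat.eq_zero_or_pos t with h | h
  · omega
  · exact absurd trivial (hb ⟨0, h⟩)

theorem sim_empty (G : SimpleGraph V) (k : ℕ) : Sim G k ∅ := by
  intro t a b _ _ ha _ _ _
  rcases Nat.eq_zero_or_pos t with h | h
  · omega
  · exact (ha ⟨0, h⟩).elim

theorem Sim.restr {G : SimpleGraph V} {k : ℕ} {A : Set V} (h : Sim G k A) (U : Set V) :
    Sim (restr G U) k A := by
  intro t a b h1 h2 h3 h4 h5 h6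
  refine h t a b h1 h2 h3 h4 (fun i => (h5 i).1) (fun i j hij => ?_)
  obtain ⟨k1, k2, k3⟩ := h6 i j hij
  exact ⟨fun e => k1 ⟨e, (h5 i).2.1, (h5 j).2.1⟩, fun e => k2 ⟨e, (h5 i).2.2, (h5 j).2.2⟩,
    fun e => k3 ⟨e, (h5 i).2.1, (h5 j).2.2⟩⟩

theorem Sim.no_matching {G : SimpleGraph V} {k : ℕ} {A : Set V} (h : Sim G k A) (a b : ℕ → V)
    (h1 : ∀ l ≤ k, a l ∈ A ∧ b l ∉ A) (h2 : ∀ l ≤ k, ∀ m ≤ k, (G.Adj (a l) (b m) ↔ l = m))
    (h3 : ∀ l m, l < m → m ≤ k → ¬ G.Adj (a l) (a m) ∧ ¬ G.Adj (b l) (b m)) : False := by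
  have hle : ∀ i : Fin (k + 1), (i : ℕ) ≤ k := fun i => Nat.lt_succ_iff.mp i.2
  have := h (k + 1) (fun i => a i) (fun i => b i) ?_ ?_ (fun i => (h1 i (hle i)).1)
    (fun i => (h1 i (hle i)).2) (fun i => (h2 i (hle i) i (hle i)).mpr rfl) ?_
  · omega
  · intro i j e
    have e' : a i = a j := e
    have := (h2 j (hle j) j (hle j)).mpr rfl
    rw [← e'] at this
    exact Fin.ext ((h2 i (hle i) j (hle j)).mp this)
  · intro i j e
    have e' : b i = b j := e
    have := (h2 i (hle i) i (hle i)).mpr rfl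
    rw [e'] at this
    exact Fin.ext ((h2 i (hle i) j (hle j)).mp this)
  · intro i j hij
    have hne : (i : ℕ) ≠ j := fun e => hij (Fin.ext e)
    refine ⟨?_, ?_, fun e => hne ((h2 i (hle i) j (hle j)).mp e)⟩
    · rcases lt_or_gt_of_ne hne with hlt | hlt
      · exact (h3 i j hlt (hle j)).1
      · exact fun e => (h3 j i hlt (hle i)).1 e.symm
    · rcases lt_or_gt_of_ne hne with hlt | hlt
      · exact (h3 i j hlt (hle j)).2
      · exact fun e => (h3 j i hlt (hle i)).2 e.symm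

theorem reg_of_sim (k w : ℕ) : ∃ R : ℕ, ∀ (V : Type) (G : SimpleGraph V),
    (∀ K : ℕ → V, ¬ Clq G K (w + 1)) → ∀ A A' : Set V, Sim G k A → Sim G k A' →
      Reg G R (A \ A') := by
  classical
  obtain ⟨R, hR⟩ := ramsey (Finset.range 4) (w + k + 2)
  refine ⟨R, fun V G hw A A' hA hA' => ?_⟩
  rintro ⟨a, z, h1, h2⟩
  obtain ⟨γ, _, s, hs1, hs2⟩ := hR (fun l m => if G.Adj (a l) (a m) then 0 else
    if G.Adj (z l) (z m) then 1 else if z l ∈ A then 2 else 3) (by
      intro l m _ _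
      split_ifs <;> simp)
  have hclq : ∀ K : ℕ → V, (∀ l m, l < m → m < w + 1 → G.Adj (K l) (K m)) → False := by
    intro K hK
    refine hw K (fun l hl m hm hlm => ?_)
    rcases lt_or_gt_of_ne hlm with hlt | hlt
    · exact hK l m hlt hm
    · exact (hK m l hlt hl).symm
  by_cases g0 : γ = 0
  · refine hclq (fun l => a (s l)) (fun l m hlm hm => ?_)
    have := (hs2 l m hlm (by omega)).2
    split_ifs at this with e <;> first | exact e | omega
  by_cases g1 : γ = 1
  · refine hclq (fun l => z (s l)) (fun l m hlm hm => ?_)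
    have := (hs2 l m hlm (by omega)).2
    split_ifs at this with e e' <;> first | exact e' | omega
  have hna : ∀ l m, l < m → m ≤ k → ¬ G.Adj (a (s l)) (a (s m)) ∧ ¬ G.Adj (z (s l)) (z (s m)) := by
    intro l m hlm hm
    have := (hs2 l m hlm (by omega)).2
    split_ifs at this with e e' <;> first | exact ⟨e, e'⟩ | omega
  have hm : ∀ l ≤ k, ∀ m ≤ k, (G.Adj (a (s l)) (z (s m)) ↔ l = m) := by
    intro l hl m hm
    rw [h2 _ (hs1 l (by omega)) _ (hs1 m (by omega))]
    refine ⟨fun e => ?_, fun e => by rw [e]⟩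
    by_contra hne
    rcases lt_or_gt_of_ne hne with hlt | hlt
    · have := (hs2 l m hlt (by omega)).1; omega
    · have := (hs2 m l hlt (by omega)).1; omega
  by_cases g2 : γ = 2
  · refine hA'.no_matching (fun l => z (s l)) (fun l => a (s l)) (fun l hl => ?_)
      (fun l hl m hm' => ?_) (fun l m hlm hm' => (hna l m hlm hm').symm)
    · have := (hs2 l (k + 1) (by omega) (by omega)).2
      obtain ⟨k1, k2⟩ := h1 _ (hs1 l (by omega))
      refine ⟨?_, k1.2⟩
      by_contra hn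
      split_ifs at this with e e' e''
      · omega
      · omega
      · exact k2 ⟨e'', hn⟩
      · omega
    · rw [G.adj_comm, hm m hm' l hl, eq_comm]
  · refine hA.no_matching (fun l => a (s l)) (fun l => z (s l)) (fun l hl => ?_) hm hna
    have := (hs2 l (k + 1) (by omega) (by omega)).2
    obtain ⟨k1, k2⟩ := h1 _ (hs1 l (by omega))
    refine ⟨k1.1, ?_⟩
    split_ifs at this with e e' e''
    · omega
    · omega
    · omega
    · exact e''

open Classical in
/-- The inductive statement for one side of the decomposition tree. -/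
def QS (G : SimpleGraph V) (Good : Set V → Prop) (C : Set V) (B : Finset V) (N : ℕ) (S : Set V) :
    Prop :=
  ∃ S', Good S' ∧ S' ⊆ S ∧ (∀ b ∈ B, b ∈ S → b ∈ S') ∧
    Col G (C ∩ S') (7 ^ (B.filter (fun b => b ∈ S)).card * N)

open Classical in
theorem QS.col {G : SimpleGraph V} {Good : Set V → Prop} {C : Set V} {B : Finset V} {N : ℕ}
    (H : ∀ A A', Good A → Good A' → (∀ b ∈ B, b ∉ A \ A') → Col G (C ∩ (A \ A')) N)
    {S : Set V} (hS : Good S) (h : QS G Good C B N S) :
    Col G (C ∩ S) (7 ^ (B.filter (fun b => b ∈ S)).card * N + N) := by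
  obtain ⟨S', h1, _, h3, h4⟩ := h
  refine (h4.union (H S S' hS h1 (fun b hb hb' => hb'.2 (h3 b hb hb'.1)))).mono ?_ le_rfl
  rintro x ⟨hx, hxS⟩
  by_cases e : x ∈ S'
  · exact Or.inl ⟨hx, e⟩
  · exact Or.inr ⟨hx, hxS, e⟩

open Classical in
theorem qs_step {α : Type} {G : SimpleGraph V} {Good : Set V → Prop} {C : Set V} {B : Finset V}
    {N : ℕ} (hN : 1 ≤ N) (h0 : Good ∅)
    (H : ∀ A A', Good A → Good A' → (∀ b ∈ B, b ∉ A \ A') → Col G (C ∩ (A \ A')) N)
    {S : Set V} (hS : Good S) (ch : Finset α) (hch : ch.card ≤ 3) (Sc : α → Set V)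
    (hSc : ∀ c ∈ ch, Sc c ⊆ S ∧ Good (Sc c) ∧ QS G Good C B N (Sc c)) (P : Set V)
    (hP : P.Subsingleton) (hcov : ∀ x ∈ S, x ∈ P ∨ ∃ c ∈ ch, x ∈ Sc c) : QS G Good C B N S := by
  by_cases e0 : (B.filter (fun b => b ∈ S)).card = 0
  · refine ⟨∅, h0, Set.empty_subset _, fun b hb hbS => ?_, by simpa using col_empty G _⟩
    have := Finset.card_eq_zero.mp e0
    exact absurd (Finset.mem_filter.mpr ⟨hb, hbS⟩) (by rw [this]; simp)
  by_cases e1 : ∃ c ∈ ch, ∀ b ∈ B, b ∈ S → b ∈ Sc c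
  · obtain ⟨c, hc, hall⟩ := e1
    obtain ⟨k1, _, S', k2, k3, k4, k5⟩ := hSc c hc
    refine ⟨S', k2, k3.trans k1, fun b hb hbS => k4 b hb (hall b hb hbS), k5.mono le_rfl ?_⟩
    refine Nat.mul_le_mul_right _ (Nat.pow_le_pow_right (by norm_num) (Finset.card_le_card ?_))
    intro b hb
    rw [Finset.mem_filter] at hb ⊢
    exact ⟨hb.1, k1 hb.2⟩
  push Not at e1
  obtain ⟨j, hj⟩ := Nat.exists_eq_succ_of_ne_zero e0
  refine ⟨S, hS, le_rfl, fun _ _ h => h, ?_⟩
  rw [hj]
  have c1 := col_biUnion (G := G) ch (fun c => C ∩ Sc c) (7 ^ j * N + N) (by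
    intro c hc
    obtain ⟨k1, k2, k3⟩ := hSc c hc
    refine (k3.col H k2).mono le_rfl (Nat.add_le_add_right (Nat.mul_le_mul_right _
      (Nat.pow_le_pow_right (by norm_num) ?_)) _)
    obtain ⟨b, hb, hbS, hbc⟩ := e1 c hc
    have : (B.filter (fun b => b ∈ Sc c)).card < (B.filter (fun b => b ∈ S)).card := by
      apply Finset.card_lt_card
      refine ⟨fun b hb => ?_, fun hsub => ?_⟩
      · rw [Finset.mem_filter] at hb ⊢
        exact ⟨hb.1, k1 hb.2⟩
      · exact hbc (Finset.mem_filter.mp (hsub (Finset.mem_filter.mpr ⟨hb, hbS⟩))).2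
    omega)
  refine ((col_subsingleton G hP).union c1).mono ?_ ?_
  · rintro x ⟨hx, hxS⟩
    rcases hcov x hxS with h | ⟨c, hc, h⟩
    · exact Or.inl h
    · exact Or.inr ⟨c, hc, hx, h⟩
  · have h7 : 1 ≤ 7 ^ j := Nat.one_le_pow _ _ (by norm_num)
    have h8 : N ≤ 7 ^ j * N := Nat.le_mul_of_pos_left _ h7
    have h9 : ch.card * (7 ^ j * N + N) ≤ 3 * (7 ^ j * N + N) := Nat.mul_le_mul_right _ hch
    rw [Nat.pow_succ, Nat.mul_comm (7 ^ j) 7, Nat.mul_assoc]
    omega

section TreeSides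
variable {Y : Type}

/-- The side of the tree edge `u w` containing `u`. -/
def side (T : SimpleGraph Y) (u w : Y) : Set Y := {x | (T.deleteEdges {s(u, w)}).Reachable u x}

theorem side_cover {T H : SimpleGraph Y} (hH : H ≤ T) {v x : Y} (h : H.Reachable v x) :
    x = v ∨ ∃ c, H.Adj v c ∧ x ∈ side T c v := by
  rw [SimpleGraph.reachable_iff_reflTransGen] at h
  induction h with
  | refl => exact Or.inl rfl
  | tail _ hxy ih =>
    rename_i x y _
    by_cases ey : y = v
    · exact Or.inl ey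
    right
    by_cases ex : x = v
    · exact ⟨y, ex ▸ hxy, SimpleGraph.Reachable.refl _⟩
    obtain ⟨c, h1, h2⟩ := ih.resolve_left ex
    refine ⟨c, h1, SimpleGraph.Reachable.trans h2 (SimpleGraph.Adj.reachable ?_)⟩
    rw [SimpleGraph.deleteEdges_adj]
    refine ⟨hH hxy, ?_⟩
    simp only [Set.mem_singleton_iff, Sym2.eq_iff]
    rintro (⟨_, e⟩ | ⟨e, _⟩)
    · exact ey e
    · exact ex e

theorem not_mem_side {T : SimpleGraph Y} (hT : T.IsAcyclic) {c v : Y} (h : T.Adj c v) :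
    v ∉ side T c v :=
  SimpleGraph.isBridge_iff.mp (SimpleGraph.isAcyclic_iff_forall_adj_isBridge.mp hT h)

theorem side_sub {T : SimpleGraph Y} (hT : T.IsAcyclic) {c v p : Y} (h : T.Adj v c) (hc : c ≠ p) :
    side T c v ⊆ side T v p := by
  intro x hx
  have hx' := hx
  unfold side at hx'
  rw [Set.mem_ofPred_eq, SimpleGraph.reachable_iff_reflTransGen] at hx'
  induction hx' with
  | refl =>
    apply SimpleGraph.Adj.reachable
    rw [SimpleGraph.deleteEdges_adj]
    refine ⟨h, ?_⟩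
    simp only [Set.mem_singleton_iff, Sym2.eq_iff]
    rintro (⟨_, e⟩ | ⟨_, e⟩)
    · exact hc e
    · exact h.ne e.symm
  | tail hxx hxy ih =>
    rename_i x y
    have hxs : x ∈ side T c v := (SimpleGraph.reachable_iff_reflTransGen _ _).mpr hxx
    have ex : x ≠ v := fun e => not_mem_side hT h.symm (e ▸ hxs)
    have ey : y ≠ v := fun e => not_mem_side hT h.symm (e ▸ hx)
    refine SimpleGraph.Reachable.trans (ih hxs) (SimpleGraph.Adj.reachable ?_)
    rw [SimpleGraph.deleteEdges_adj] at hxy ⊢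
    refine ⟨hxy.1, ?_⟩
    simp only [Set.mem_singleton_iff, Sym2.eq_iff]
    rintro (⟨e, _⟩ | ⟨_, e⟩)
    · exact ex e
    · exact ey e

end TreeSides

theorem tree_col {Y : Type} [Finite Y] {T : SimpleGraph Y} (hT : T.IsTree)
    (hdeg : ∀ x, (T.neighborSet x).ncard ≤ 3) (L : V → Y) (hL : Function.Injective L)
    {G : SimpleGraph V} {Good : Set V → Prop} (g0 : Good ∅) (g1 : Good Set.univ)
    (g2 : ∀ u w, T.Adj u w → Good (L ⁻¹' side T u w)) {C : Set V} {B : Finset V} {N : ℕ}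
    (hN : 1 ≤ N)
    (H : ∀ A A', Good A → Good A' → (∀ b ∈ B, b ∉ A \ A') → Col G (C ∩ (A \ A')) N) :
    Col G C (7 ^ B.card * N + N) := by
  classical
  have hP : ∀ v : Y, (L ⁻¹' {v}).Subsingleton := fun v x hx y hy =>
    hL ((Set.mem_singleton_iff.mp hx).trans (Set.mem_singleton_iff.mp hy).symm)
  have hcard : ∀ (v : Y) (p : Y → Prop), ∃ ch : Finset Y, ch.card ≤ 3 ∧
      ∀ c, c ∈ ch ↔ T.Adj v c ∧ p c := by
    intro v p
    refine ⟨((Set.toFinite (T.neighborSet v)).toFinset).filter p, ?_, fun c => ?_⟩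
    · refine (Finset.card_filter_le _ _).trans ?_
      rw [← Set.ncard_eq_toFinset_card]
      exact hdeg v
    · rw [Finset.mem_filter, Set.Finite.mem_toFinset, SimpleGraph.mem_neighborSet]
  have key : ∀ n : ℕ, ∀ v p, T.Adj v p → (side T v p).ncard = n →
      QS G Good C B N (L ⁻¹' side T v p) := by
    intro n
    induction n using Nat.strong_induction_on with
    | _ n ih =>
    intro v p hvp hn
    obtain ⟨ch, hch, hmem⟩ := hcard v (fun c => c ≠ p)
    refine qs_step hN g0 H (g2 v p hvp) ch hch (fun c => L ⁻¹' side T c v)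
      ?_ _ (hP v) ?_
    · intro c hc
      rw [hmem] at hc
      have hsub := side_sub hT.isAcyclic hc.1 hc.2
      refine ⟨Set.preimage_mono hsub, g2 c v hc.1.symm, ih _ ?_ c v hc.1.symm rfl⟩
      rw [← hn]
      exact Set.ncard_lt_ncard ⟨hsub, fun h => not_mem_side hT.isAcyclic hc.1.symm
        (h (SimpleGraph.Reachable.refl _))⟩ (Set.toFinite _)
    · intro x hx
      rcases side_cover (SimpleGraph.deleteEdges_le _) hx with h | ⟨c, h1, h2⟩
      · exact Or.inl h
      · rw [SimpleGraph.deleteEdges_adj] at h1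
        refine Or.inr ⟨c, ?_, h2⟩
        rw [hmem]
        refine ⟨h1.1, fun e => h1.2 ?_⟩
        rw [e]; rfl
  obtain ⟨r⟩ := hT.connected.nonempty
  have hq : QS G Good C B N Set.univ := by
    obtain ⟨ch, hch, hmem⟩ := hcard r (fun _ => True)
    refine qs_step hN g0 H g1 ch hch (fun c => L ⁻¹' side T c r)
      ?_ _ (hP r) ?_
    · intro c hc
      rw [hmem] at hc
      exact ⟨Set.subset_univ _, g2 c r hc.1.symm, key _ c r hc.1.symm rfl⟩
    · intro x _
      rcases side_cover le_rfl (hT.connected.preconnected r (L x)) with h | ⟨c, h1, h2⟩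
      · exact Or.inl h
      · exact Or.inr ⟨c, (hmem c).mpr ⟨h1, trivial⟩, h2⟩
  refine (hq.col H g1).mono (fun x hx => ⟨hx, trivial⟩) ?_
  exact Nat.add_le_add_right (Nat.mul_le_mul_right _
    (Nat.pow_le_pow_right (by norm_num)
      (@Finset.card_filter_le _ B _ (fun _ => Classical.propDecidable _)))) _

end Pool.Agent.H459Z
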